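import Pool.Agent.X172.MSS.Main

/-!
Graphs with minimum degree two: chains of vertices of degree two.
-/

namespace Pool.Agent.X172.MSS

open Finset Polynomial Matrix H990SF Pool.Agent.X172.MagLap

variable {V : Type} [Fintype V] [DecidableEq V]

/-- `Chain G p S v t`: starting with the edge `p v`, there is a non-backtracking walk whose next
`t` vertices (starting with `v`) have degree two and are distinct elements of `S`. -/
def Chain (G : SimpleGraph V) [DecidableRel G.Adj] : ℕ → Finset V → V → V → Prop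
  | 0, _, _, _ => True
  | t + 1, S, p, v => G.degree v = 2 ∧ v ∈ S ∧ ∃ u, u ≠ p ∧ G.Adj v u ∧ Chain G t (S.erase v) v u

variable (G : SimpleGraph V) [DecidableRel G.Adj]

lemma Chain.mono {t : ℕ} : ∀ {S T : Finset V} {p v : V}, S ⊆ T → Chain G t S p v →
    Chain G t T p v := by
  induction t with
  | zero => intro S T p v _ _; trivial
  | succ t ih =>
    intro S T p v hST h
    obtain ⟨h1, h2, u, h3, h4, h5⟩ := h
    exact ⟨h1, hST h2, u, h3, h4, ih (erase_subset_erase _ hST) h5⟩

lemma Chain.card {t : ℕ} : ∀ {S : Finset V} {p v : V}, Chain G t S p v → t ≤ S.card := by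
  induction t with
  | zero => intro S p v _; exact Nat.zero_le _
  | succ t ih =>
    intro S p v h
    obtain ⟨h1, h2, u, h3, h4, h5⟩ := h
    have := ih h5
    rw [card_erase_of_mem h2] at this
    have h6 := card_pos.mpr ⟨v, h2⟩
    omega

/-- the ratios -/
noncomputable def al (K t : ℕ) : ℝ := 1 + 1 / (2 * ((t : ℝ) + 2 * K + 2))

lemma al_gt (K t : ℕ) : 1 < al K t := by
  unfold al
  have : 0 < 1 / (2 * ((t : ℝ) + 2 * K + 2)) := by positivity
  linarith

lemma al_anti (K : ℕ) {s t : ℕ} (h : s ≤ t) : al K t ≤ al K s := by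
  unfold al
  have h' : (s : ℝ) ≤ t := by exact_mod_cast h
  have : 1 / (2 * ((t : ℝ) + 2 * K + 2)) ≤ 1 / (2 * ((s : ℝ) + 2 * K + 2)) := by
    apply one_div_le_one_div_of_le
    · positivity
    · linarith
  linarith

lemma inv_al (K t : ℕ) : 1 / al K t = 1 - 1 / (2 * ((t : ℝ) + 2 * K + 2) + 1) := by
  unfold al
  field_simp
  ring

lemma al_succ {K t : ℕ} (ht : t + 1 ≤ K) {x : ℝ} (hx : x ≤ 1 / (36 * ((K : ℝ) + 1) ^ 2)) :
    al K (t + 1) ≤ 2 - x - 1 / al K t := by
  rw [inv_al]
  unfold al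
  push_cast
  set u : ℝ := (t : ℝ) + 2 * K + 2 with hu
  have ht' : (t : ℝ) + 1 ≤ K := by exact_mod_cast ht
  have hu1 : u ≤ 3 * K + 1 := by rw [hu]; linarith
  have hu0 : 0 < u := by positivity
  have h1 : 1 / (2 * ((t : ℝ) + 1 + 2 * K + 2)) = 1 / (2 * u + 2) := by
    congr 1
    rw [hu]; ring
  rw [h1]
  have h2 : 1 / (2 * u + 1) - 1 / (2 * u + 2) = 1 / ((2 * u + 1) * (2 * u + 2)) := by
    field_simp
    ring
  have h3 : 1 / (36 * ((K : ℝ) + 1) ^ 2) ≤ 1 / ((2 * u + 1) * (2 * u + 2)) := by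
    apply one_div_le_one_div_of_le
    · positivity
    · have e1 : 2 * u + 1 ≤ 6 * K + 3 := by linarith
      have e2 : 2 * u + 2 ≤ 6 * K + 4 := by linarith
      nlinarith [mul_le_mul e1 e2 (by positivity) (by positivity)]
  linarith

lemma al_branch {K k : ℕ} (hk : 3 ≤ k) {x : ℝ} (hx : x ≤ 1 / (36 * ((K : ℝ) + 1) ^ 2)) :
    al K 0 ≤ (k : ℝ) - x - ((k : ℝ) - 1) * (1 / al K K) := by
  rw [inv_al]
  unfold al
  have hk' : (3 : ℝ) ≤ k := by exact_mod_cast hk
  have hK : (0 : ℝ) ≤ K := Nat.cast_nonneg K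
  have h1 : (2 * ((K : ℝ) + 2 * K + 2) + 1) = 6 * K + 5 := by ring
  have h2 : 1 / (2 * (((0 : ℕ) : ℝ) + 2 * K + 2)) = 1 / (4 * K + 4) := by
    congr 1
    push_cast
    ring
  rw [h1, h2]
  have h3 : (2 : ℝ) / (6 * K + 5) ≤ ((k : ℝ) - 1) * (1 / (6 * K + 5)) := by
    rw [mul_one_div]
    apply div_le_div_of_nonneg_right (by linarith) (by positivity)
  have h4 : (2 : ℝ) / (6 * K + 5) - 1 / (4 * K + 4) = (2 * K + 3) / ((6 * K + 5) * (4 * K + 4)) := by
    field_simp
    ring
  have h5 : 1 / (36 * ((K : ℝ) + 1) ^ 2) ≤ (2 * K + 3) / ((6 * K + 5) * (4 * K + 4)) := by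
    rw [div_le_div_iff₀ (by positivity) (by positivity)]
    nlinarith [mul_nonneg hK hK, mul_nonneg hK (mul_nonneg hK hK)]
  nlinarith

lemma al_root {K k : ℕ} (hk : 2 ≤ k) {x : ℝ} (hx : x ≤ 1 / (36 * ((K : ℝ) + 1) ^ 2)) :
    0 < (k : ℝ) - x - (k : ℝ) * (1 / al K K) := by
  rw [inv_al]
  have hk' : (2 : ℝ) ≤ k := by exact_mod_cast hk
  have hK : (0 : ℝ) ≤ K := Nat.cast_nonneg K
  have h1 : (2 * ((K : ℝ) + 2 * K + 2) + 1) = 6 * K + 5 := by ring
  rw [h1]
  have h3 : (2 : ℝ) / (6 * K + 5) ≤ (k : ℝ) * (1 / (6 * K + 5)) := by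
    rw [mul_one_div]
    apply div_le_div_of_nonneg_right (by linarith) (by positivity)
  have h5 : 1 / (36 * ((K : ℝ) + 1) ^ 2) < 2 / (6 * K + 5) := by
    rw [div_lt_div_iff₀ (by positivity) (by positivity)]
    nlinarith [mul_nonneg hK hK]
  nlinarith

theorem g_pos_chain {L : List (V × V)} (hL : EdgeList G L) (hdeg : ∀ v, 2 ≤ G.degree v) {K : ℕ}
    (hK : ∀ p v, G.Adj p v → ¬ Chain G (K + 1) (univ.erase p) p v) {x : ℝ}
    (hx : x ≤ 1 / (36 * ((K : ℝ) + 1) ^ 2)) :
    ∀ (n : ℕ) (S : Finset V), S.card = n → 0 < g (fun v => (G.degree v : ℝ) - x) L S ∧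
      ∀ v ∈ S, ∀ p, p ∉ S → G.Adj v p → ∀ t ≤ K, ¬ Chain G (t + 1) S p v →
      al K t * g (fun v => (G.degree v : ℝ) - x) L (S.erase v) ≤
        g (fun v => (G.degree v : ℝ) - x) L S := by
  intro n
  induction n with
  | zero =>
    intro S hS
    rw [card_eq_zero] at hS
    subst hS
    refine ⟨by rw [g_empty]; exact one_pos, fun v hv => absurd hv (notMem_empty v)⟩
  | succ n ih =>
    intro S hS
    set a : V → ℝ := fun v => (G.degree v : ℝ) - x with ha
    have key : ∀ v ∈ S, ∀ T : Finset V, S.filter (fun u => G.Adj v u) ⊆ T →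
        ∀ s : ℕ, s ≤ K → (∀ u ∈ S, G.Adj v u → ¬ Chain G (s + 1) (S.erase v) v u) →
        (a v - T.card * (1 / al K s)) * g a L (S.erase v) ≤ g a L S := by
      intro v hv T hT s hs hch
      obtain ⟨h1, h2⟩ := ih (S.erase v) (by rw [card_erase_of_mem hv, hS]; rfl)
      have hal : 0 < al K s := lt_trans one_pos (al_gt K s)
      rw [g_graph G hL a S hv, sub_mul]
      refine sub_le_sub_left ?_ _
      have h3 : ∑ u ∈ S.filter (fun u => G.Adj v u), g a L ((S.erase v).erase u) ≤
          ∑ u ∈ S.filter (fun u => G.Adj v u), 1 / al K s * g a L (S.erase v) := by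
        refine sum_le_sum fun u hu => ?_
        rw [mem_filter] at hu
        have h4 := h2 u (mem_erase.mpr ⟨hu.2.ne', hu.1⟩) v (notMem_erase v S) hu.2.symm s hs
          (hch u hu.1 hu.2)
        rw [div_mul_eq_mul_div, one_mul, le_div_iff₀ hal, mul_comm]
        exact h4
      refine h3.trans ?_
      rw [sum_const, nsmul_eq_mul, mul_assoc]
      refine mul_le_mul_of_nonneg_right ?_ (by positivity)
      exact_mod_cast card_le_card hT
    have hposS : 0 < g a L S := by
      obtain ⟨v, hv⟩ : S.Nonempty := by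
        rw [← card_pos]
        omega
      obtain ⟨h1, _⟩ := ih (S.erase v) (by rw [card_erase_of_mem hv, hS]; rfl)
      have h2 := key v hv (G.neighborFinset v) (by
        intro u hu
        rw [mem_filter] at hu
        exact (G.mem_neighborFinset v u).mpr hu.2) K le_rfl (by
        intro u _ hvu hch
        exact hK v u hvu (Chain.mono G (erase_subset_erase _ (subset_univ S)) hch))
      rw [G.card_neighborFinset_eq_degree] at h2
      exact lt_of_lt_of_le (mul_pos (al_root (hdeg v) hx) h1) h2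
    refine ⟨hposS, ?_⟩
    intro v hv p hp hvp t ht hch
    obtain ⟨h1, _⟩ := ih (S.erase v) (by rw [card_erase_of_mem hv, hS]; rfl)
    have hpm : p ∈ G.neighborFinset v := (G.mem_neighborFinset v p).mpr hvp
    have hsub : S.filter (fun u => G.Adj v u) ⊆ (G.neighborFinset v).erase p := by
      intro u hu
      rw [mem_filter] at hu
      refine mem_erase.mpr ⟨?_, (G.mem_neighborFinset v u).mpr hu.2⟩
      rintro rfl
      exact hp hu.1
    have hcard : (((G.neighborFinset v).erase p).card : ℝ) = (G.degree v : ℝ) - 1 := by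
      rw [card_erase_of_mem hpm, G.card_neighborFinset_eq_degree,
        Nat.cast_sub (by have := hdeg v; omega)]
      simp
    rcases Nat.lt_or_ge 2 (G.degree v) with h3 | h3
    · have h2 := key v hv _ hsub K le_rfl (by
        intro u _ hvu hch
        exact hK v u hvu (Chain.mono G (erase_subset_erase _ (subset_univ S)) hch))
      rw [hcard] at h2
      refine le_trans (mul_le_mul_of_nonneg_right ?_ h1.le) h2
      exact (al_anti K (Nat.zero_le t)).trans (al_branch h3 hx)
    · have h4 : G.degree v = 2 := le_antisymm h3 (hdeg v)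
      obtain ⟨u, hu⟩ : ((G.neighborFinset v).erase p).Nonempty := by
        rw [← card_pos, card_erase_of_mem hpm, G.card_neighborFinset_eq_degree, h4]
        norm_num
      rw [mem_erase, G.mem_neighborFinset] at hu
      rcases t with _ | t
      · exact absurd ⟨h4, hv, u, hu.1, hu.2, trivial⟩ hch
      · have h2 := key v hv _ hsub t (by omega) (by
          intro u' hu' hvu' hch'
          apply hch
          refine ⟨h4, hv, u', ?_, hvu', hch'⟩
          rintro rfl
          exact hp hu')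
        rw [hcard, h4] at h2
        refine le_trans (mul_le_mul_of_nonneg_right ?_ h1.le) h2
        have h5 := al_succ ht hx
        have h6 : a v = 2 - x := by simp [ha, h4]
        rw [h6]
        push_cast
        linarith

theorem nu_of_chain [Nonempty V] (hdeg : ∀ v, 2 ≤ G.degree v) {K : ℕ}
    (hK : ∀ p v, G.Adj p v → ¬ Chain G (K + 1) (univ.erase p) p v) :
    1 / (36 * ((K : ℝ) + 1) ^ 2) ≤ nu G := by
  apply nu_of_pos
  intro L hL x hx
  exact ((g_pos_chain G hL hdeg hK hx _ univ rfl).1).ne'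

end Pool.Agent.X172.MSS
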