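import Mathlib
import Pool.Agent.H990R2.SF.LS

/-!
The determinant `det (diag z + H)` of a Hermitian matrix as a multi-affine stable function, and
the averaging identity for one pair of entries.
-/

namespace Pool.Agent.X172.MSS

open Finset Complex Matrix H990SF

variable {V : Type*} [Fintype V] [DecidableEq V]

/-- `det (diag z + H)` -/
noncomputable def FD (H : Matrix V V ℂ) : (V → ℂ) → ℂ := fun z => (Matrix.diagonal z + H).det

omit [Fintype V] in
/-- the matrix with row `i` replaced -/
lemma diag_update (H : Matrix V V ℂ) (z : V → ℂ) (i : V) (t : ℂ) :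
    Matrix.diagonal (Function.update z i t) + H =
      Matrix.updateRow (Matrix.diagonal z + H) i (t • Pi.single i 1 + H i) := by
  ext a b
  by_cases ha : a = i
  · subst ha
    rw [Matrix.updateRow_self]
    by_cases hb : a = b
    · subst hb
      simp
    · simp [Matrix.diagonal_apply_ne _ hb, Ne.symm hb]
  · rw [Matrix.updateRow_ne ha]
    by_cases hb : a = b
    · subst hb
      simp [ha]
    · simp [Matrix.diagonal_apply_ne _ hb]

lemma FD_update (H : Matrix V V ℂ) (z : V → ℂ) (i : V) (t : ℂ) :
    FD H (Function.update z i t) =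
      t * (Matrix.updateRow (Matrix.diagonal z + H) i (Pi.single i 1)).det +
        (Matrix.updateRow (Matrix.diagonal z + H) i (H i)).det := by
  unfold FD
  rw [diag_update, Matrix.det_updateRow_add, Matrix.det_updateRow_smul]

lemma MA_FD (H : Matrix V V ℂ) : MA (FD H) := by
  intro z i t
  rw [FD_update, FD_update, FD_update]
  ring

lemma pd_FD (H : Matrix V V ℂ) (i : V) (z : V → ℂ) :
    pd i (FD H) z = (Matrix.updateRow (Matrix.diagonal z + H) i (Pi.single i 1)).det := by
  unfold pd
  rw [FD_update, FD_update]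
  ring

lemma pd_pd_FD (H : Matrix V V ℂ) {i j : V} (hij : i ≠ j) (z : V → ℂ) :
    pd i (pd j (FD H)) z = (Matrix.updateRow (Matrix.updateRow (Matrix.diagonal z + H) j
      (Pi.single j 1)) i (Pi.single i 1)).det := by
  have h : ∀ t, pd j (FD H) (Function.update z i t) =
      t * (Matrix.updateRow (Matrix.updateRow (Matrix.diagonal z + H) j
      (Pi.single j 1)) i (Pi.single i 1)).det + (Matrix.updateRow (Matrix.updateRow
      (Matrix.diagonal z + H) j (Pi.single j 1)) i (H i)).det := by
    intro t
    rw [pd_FD, diag_update]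
    have h2 : ∀ r : V → ℂ, Matrix.updateRow (Matrix.updateRow (Matrix.diagonal z + H) i r) j
        (Pi.single j 1) = Matrix.updateRow (Matrix.updateRow (Matrix.diagonal z + H) j
        (Pi.single j 1)) i r := by
      intro r
      ext a b
      by_cases ha : a = i
      · subst ha
        rw [Matrix.updateRow_ne hij, Matrix.updateRow_self, Matrix.updateRow_self]
      · by_cases hb : a = j
        · subst hb
          rw [Matrix.updateRow_self, Matrix.updateRow_ne ha, Matrix.updateRow_self]
        · rw [Matrix.updateRow_ne hb, Matrix.updateRow_ne ha, Matrix.updateRow_ne ha,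
            Matrix.updateRow_ne hb]
    rw [h2, Matrix.det_updateRow_add, Matrix.det_updateRow_smul]
  have e : pd i (pd j (FD H)) z =
      pd j (FD H) (Function.update z i 1) - pd j (FD H) (Function.update z i 0) := rfl
  rw [e, h, h]
  ring

lemma CO_FD {H : Matrix V V ℂ} (hH : ∀ i j, (starRingEnd ℂ) (H i j) = H i j) : CO (FD H) := by
  intro z
  unfold FD
  rw [RingHom.map_det]
  congr 1
  ext a b
  simp only [Matrix.add_apply, RingHom.mapMatrix_apply, Matrix.map_apply, map_add, hH]
  congr 1
  by_cases h : a = b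
  · subst h
    simp
  · simp [Matrix.diagonal_apply_ne _ h]

lemma Stab_FD {H : Matrix V V ℂ} (hH : H.IsHermitian) : Stab (FD H) := by
  intro z hz h0
  unfold FD at h0
  obtain ⟨v, hv, hv0⟩ := Matrix.exists_mulVec_eq_zero_iff.mpr h0
  have h1 : star v ⬝ᵥ ((Matrix.diagonal z + H) *ᵥ v) = 0 := by rw [hv0]; simp
  rw [Matrix.add_mulVec, dotProduct_add] at h1
  have h2 : (star v ⬝ᵥ (H *ᵥ v)).im = 0 := by
    have h5 : star (star v ⬝ᵥ (H *ᵥ v)) = star v ⬝ᵥ (H *ᵥ v) := by
      rw [← Matrix.star_dotProduct_star, star_star, Matrix.star_mulVec, hH.eq,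
        Matrix.dotProduct_mulVec]
    exact Complex.conj_eq_iff_im.mp h5
  have h3 : (star v ⬝ᵥ (Matrix.diagonal z *ᵥ v)).im = ∑ i, (z i).im * ‖v i‖ ^ 2 := by
    rw [dotProduct, Complex.im_sum]
    refine Finset.sum_congr rfl fun i _ => ?_
    rw [Matrix.mulVec_diagonal, Pi.star_apply, RCLike.star_def]
    have h6 : (starRingEnd ℂ) (v i) * (z i * v i) = ((‖v i‖ ^ 2 : ℝ) : ℂ) * z i := by
      rw [← Complex.normSq_eq_norm_sq, ← Complex.mul_conj]
      ring
    rw [h6, Complex.im_ofReal_mul, mul_comm]
  have h4 : ∑ i, (z i).im * ‖v i‖ ^ 2 = 0 := by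
    have := congrArg Complex.im h1
    rw [Complex.add_im, h2, h3] at this
    simpa using this
  apply hv
  funext i
  have h5 := (Finset.sum_eq_zero_iff_of_nonneg
    (fun i _ => mul_nonneg (hz i).le (sq_nonneg ‖v i‖))).mp h4 i (mem_univ i)
  have h6 := (hz i).ne'
  have h7 : ‖v i‖ ^ 2 = 0 := by
    rcases mul_eq_zero.mp h5 with h | h
    · exact absurd h h6
    · exact h
  simpa using h7

/-- the matrix with `1` at the entries `(x,y)` and `(y,x)` -/
def EE (e : V × V) : Matrix V V ℂ := Matrix.single e.1 e.2 1 + Matrix.single e.2 e.1 1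

omit [Fintype V] in
lemma two_rows (M : Matrix V V ℂ) {x y : V} (hxy : x ≠ y) (m : ℂ) :
    M + m • EE (x, y) = Matrix.updateRow (Matrix.updateRow M x (m • Pi.single y 1 + M x)) y
      (m • Pi.single x 1 + M y) := by
  ext a b
  by_cases ha : a = y
  · subst ha
    rw [Matrix.updateRow_self]
    simp [EE, Matrix.single_apply, hxy, Pi.single_apply, eq_comm, add_comm]
  · rw [Matrix.updateRow_ne ha]
    by_cases hb : a = x
    · subst hb
      rw [Matrix.updateRow_self]
      simp [EE, Matrix.single_apply, hxy, Ne.symm hxy, Pi.single_apply, eq_comm, add_comm]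
    · rw [Matrix.updateRow_ne hb]
      simp [EE, Ne.symm ha, Ne.symm hb]

omit [Fintype V] in
lemma updateRow_comm' (M : Matrix V V ℂ) {x y : V} (hxy : x ≠ y) (r s : V → ℂ) :
    Matrix.updateRow (Matrix.updateRow M x r) y s =
      Matrix.updateRow (Matrix.updateRow M y s) x r := by
  ext a b
  by_cases ha : a = x
  · subst ha
    rw [Matrix.updateRow_ne hxy, Matrix.updateRow_self, Matrix.updateRow_self]
  · by_cases hb : a = y
    · subst hb
      rw [Matrix.updateRow_self, Matrix.updateRow_ne ha, Matrix.updateRow_self]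
    · rw [Matrix.updateRow_ne hb, Matrix.updateRow_ne ha, Matrix.updateRow_ne ha,
        Matrix.updateRow_ne hb]

lemma det_swap_rows (M : Matrix V V ℂ) {x y : V} (hxy : x ≠ y) (r s : V → ℂ) :
    (Matrix.updateRow (Matrix.updateRow M x r) y s).det =
      -(Matrix.updateRow (Matrix.updateRow M x s) y r).det := by
  have h := (Matrix.detRowAlternating (n := V) (R := ℂ)).map_swap
    (Matrix.updateRow (Matrix.updateRow M x s) y r) hxy
  have h2 : (Matrix.updateRow (Matrix.updateRow M x s) y r) ∘ Equiv.swap x y =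
      Matrix.updateRow (Matrix.updateRow M x r) y s := by
    funext a
    simp only [Function.comp]
    by_cases ha : a = x
    · subst ha
      rw [Equiv.swap_apply_left, Matrix.updateRow_ne hxy]
      funext b
      simp
    · by_cases hb : a = y
      · subst hb
        rw [Equiv.swap_apply_right, Matrix.updateRow_ne hxy]
        funext b
        simp
      · rw [Equiv.swap_apply_of_ne_of_ne ha hb, Matrix.updateRow_ne hb, Matrix.updateRow_ne ha,
          Matrix.updateRow_ne hb, Matrix.updateRow_ne ha]
  rw [h2] at h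
  exact h

/-- the linear coefficient -/
noncomputable def BB (H : Matrix V V ℂ) (e : V × V) (z : V → ℂ) : ℂ :=
  (Matrix.updateRow (Matrix.diagonal z + H) e.1 (Pi.single e.2 1)).det +
    (Matrix.updateRow (Matrix.diagonal z + H) e.2 (Pi.single e.1 1)).det

theorem FD_add (H : Matrix V V ℂ) {x y : V} (hxy : x ≠ y) (m : ℂ) (z : V → ℂ) :
    FD (H + m • EE (x, y)) z = FD H z + m * BB H (x, y) z - m ^ 2 * pd x (pd y (FD H)) z := by
  rw [pd_pd_FD _ hxy]
  unfold FD BB
  rw [← add_assoc, two_rows _ hxy]
  set M := Matrix.diagonal z + H with hM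
  have h0 : ∀ s : V → ℂ, (Matrix.updateRow (Matrix.updateRow M x (m • Pi.single y 1 + M x)) y
      s).det = m * (Matrix.updateRow (Matrix.updateRow M x (Pi.single y 1)) y s).det +
      (Matrix.updateRow M y s).det := by
    intro s
    rw [updateRow_comm' _ hxy, Matrix.det_updateRow_add, Matrix.det_updateRow_smul,
      ← updateRow_comm' _ hxy, ← updateRow_comm' _ hxy]
    have : Matrix.updateRow M x (M x) = M := Matrix.updateRow_eq_self M x
    rw [this]
  have h1 : Matrix.updateRow M y (M y) = M := Matrix.updateRow_eq_self M y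
  have h2 : Matrix.updateRow (Matrix.updateRow M x (Pi.single y 1)) y (M y) =
      Matrix.updateRow M x (Pi.single y 1) := by
    rw [updateRow_comm' _ hxy, h1]
  rw [Matrix.det_updateRow_add, Matrix.det_updateRow_smul, h0, h0, h1, h2,
    det_swap_rows M hxy (Pi.single y 1) (Pi.single x 1), updateRow_comm' _ hxy]
  simp only
  ring

theorem pd_pd_FD_add (H : Matrix V V ℂ) {x y : V} (hxy : x ≠ y) (m : ℂ) (z : V → ℂ) :
    pd x (pd y (FD (H + m • EE (x, y)))) z = pd x (pd y (FD H)) z := by
  rw [pd_pd_FD _ hxy, pd_pd_FD _ hxy]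
  congr 1
  ext a b
  by_cases ha : a = x
  · subst ha
    rw [Matrix.updateRow_self, Matrix.updateRow_self]
  · by_cases hb : a = y
    · subst hb
      rw [Matrix.updateRow_ne ha, Matrix.updateRow_self, Matrix.updateRow_ne ha,
        Matrix.updateRow_self]
    · rw [Matrix.updateRow_ne ha, Matrix.updateRow_ne hb, Matrix.updateRow_ne ha,
        Matrix.updateRow_ne hb]
      simp [EE, Ne.symm ha, Ne.symm hb]

end Pool.Agent.X172.MSS
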