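import Pool.Agent.X172.MSS.Chain

/-!
The spectral gap of the combinatorial Laplacian and test functions on chains.
-/

namespace Pool.Agent.X172.MSS

open Finset Matrix Pool.Agent.X172.MagLap

variable {V : Type} [Fintype V] [DecidableEq V]

theorem pot1 (G : SimpleGraph V) : IsPotential G (fun _ _ => 1) := by
  intro x y _
  simp

/-- The second smallest eigenvalue (counted with multiplicity) of the combinatorial Laplacian
`D - A`: the minimum of `max (λ_i, λ_j)` over the pairs `i ≠ j` of eigenvalue indices. -/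
noncomputable def lam2 (G : SimpleGraph V) [DecidableRel G.Adj] : ℝ :=
  ⨅ q : {q : V × V // q.1 ≠ q.2},
    max ((lap_hermitian (pot1 G)).eigenvalues q.1.1) ((lap_hermitian (pot1 G)).eigenvalues q.1.2)

variable (G : SimpleGraph V) [DecidableRel G.Adj]

/-- the energy of a real function -/
noncomputable def en (f : V → ℝ) : ℝ := ∑ x, f x * ∑ y ∈ G.neighborFinset x, (f x - f y)

lemma form_real (f : V → ℝ) : form (lap G (fun _ _ => 1)) (fun x => (f x : ℂ)) = en G f := by
  unfold form en
  have h : ∀ x, ∑ y, star ((f x : ℝ) : ℂ) * lap G (fun _ _ => 1) x y * ((f y : ℝ) : ℂ) =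
      ((f x * ∑ y ∈ G.neighborFinset x, (f x - f y) : ℝ) : ℂ) := by
    intro x
    have h2 := lap_mulVec G (fun _ _ => 1) (fun x => (f x : ℂ)) x
    rw [Matrix.mulVec, dotProduct] at h2
    have h3 : ∑ y, star ((f x : ℝ) : ℂ) * lap G (fun _ _ => 1) x y * ((f y : ℝ) : ℂ) =
        (f x : ℂ) * ∑ y, lap G (fun _ _ => 1) x y * ((f y : ℝ) : ℂ) := by
      rw [mul_sum]
      refine sum_congr rfl fun y _ => ?_
      rw [RCLike.star_def, Complex.conj_ofReal]
      ring
    rw [h3, h2]
    push_cast
    congr 1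
    refine sum_congr rfl fun y _ => ?_
    ring
  rw [sum_congr rfl (fun x _ => h x), ← Complex.ofReal_sum, Complex.ofReal_re]

lemma sum_basis {j : V} (hj : (lap_hermitian (pot1 G)).eigenvalues j ≠ 0) :
    ∑ x, (lap_hermitian (pot1 G)).eigenvectorBasis j x = 0 := by
  set hM := lap_hermitian (pot1 G)
  have h1 := hM.mulVec_eigenvectorBasis j
  have h2 : ∑ x, (lap G (fun _ _ => 1) *ᵥ (hM.eigenvectorBasis j : V → ℂ)) x = 0 := by
    simp_rw [lap_mulVec]
    simp only [one_mul, sum_sub_distrib]
    rw [sub_eq_zero]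
    symm
    refine sum_comm' ?_
    intro x y
    simp [G.adj_comm]
  rw [h1] at h2
  simp only [Pi.smul_apply] at h2
  rw [← smul_sum] at h2
  rcases smul_eq_zero.mp h2 with h3 | h3
  · exact absurd h3 hj
  · exact h3

theorem lam2_le {f : V → ℝ} (hsum : ∑ x, f x = 0) (hf : 0 < ∑ x, f x ^ 2) {R : ℝ} (hR0 : 0 ≤ R)
    (hR : en G f ≤ R * ∑ x, f x ^ 2) : lam2 G ≤ R := by
  by_contra hcon
  push Not at hcon
  set hM := lap_hermitian (pot1 G) with hMdef
  have hpair : ∀ i j, i ≠ j → R < max (hM.eigenvalues i) (hM.eigenvalues j) := by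
    intro i j hij
    refine lt_of_lt_of_le hcon ?_
    exact ciInf_le (Set.finite_range (fun q : {q : V × V // q.1 ≠ q.2} =>
      max (hM.eigenvalues q.1.1) (hM.eigenvalues q.1.2))).bddBelow ⟨(i, j), hij⟩
  have hzero : ∀ j, hM.eigenvalues j ≤ R →
      ∑ x, star ((f x : ℝ) : ℂ) * hM.eigenvectorBasis j x = 0 := by
    intro j hj
    have hothers : ∀ i, i ≠ j → ∑ x, hM.eigenvectorBasis i x = 0 := by
      intro i hij
      apply sum_basis
      have := hpair i j hij
      rcases lt_max_iff.mp this with h | h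
      · exact (lt_of_le_of_lt hR0 h).ne'
      · exact absurd h (not_lt.mpr hj)
    have h1 := hM.eigenvectorBasis.sum_inner_mul_inner
      (WithLp.toLp 2 (fun x => (f x : ℂ))) (WithLp.toLp 2 (fun _ => (1 : ℂ)))
    have h2 := hM.eigenvectorBasis.sum_inner_mul_inner
      (WithLp.toLp 2 (fun _ => (1 : ℂ))) (WithLp.toLp 2 (fun _ => (1 : ℂ)))
    have hin1 : ∀ i, inner ℂ (hM.eigenvectorBasis i) (WithLp.toLp 2 (fun _ => (1 : ℂ))) =
        star (∑ x, hM.eigenvectorBasis i x) := by
      intro i
      rw [PiLp.inner_apply, star_sum]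
      refine sum_congr rfl fun x _ => ?_
      simp
    have hother2 : ∀ i, i ≠ j →
        inner ℂ (hM.eigenvectorBasis i) (WithLp.toLp 2 (fun _ => (1 : ℂ))) = 0 := by
      intro i hij
      rw [hin1, hothers i hij, star_zero]
    rw [sum_eq_single j (fun i _ hij => by rw [hother2 i hij, mul_zero])
      (fun h => absurd (mem_univ j) h)] at h1 h2
    have h3 : inner ℂ (WithLp.toLp 2 (fun x => (f x : ℂ)) : EuclideanSpace ℂ V)
        (WithLp.toLp 2 (fun _ => (1 : ℂ))) = 0 := by
      rw [PiLp.inner_apply]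
      simp only [RCLike.inner_apply, Complex.conj_ofReal, one_mul]
      rw [← Complex.ofReal_sum, hsum]
      simp
    have h4 : inner ℂ (WithLp.toLp 2 (fun _ => (1 : ℂ)) : EuclideanSpace ℂ V)
        (WithLp.toLp 2 (fun _ => (1 : ℂ))) ≠ 0 := by
      rw [PiLp.inner_apply]
      simp only [RCLike.inner_apply, map_one, mul_one, sum_const, nsmul_eq_mul]
      have : (0 : ℕ) < (univ : Finset V).card := card_pos.mpr ⟨j, mem_univ j⟩
      exact_mod_cast this.ne'
    rw [h3] at h1
    have h5 : inner ℂ (hM.eigenvectorBasis j) (WithLp.toLp 2 (fun _ => (1 : ℂ))) ≠ 0 := by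
      intro h
      rw [h, mul_zero] at h2
      exact h4 h2.symm
    have h6 := (mul_eq_zero.mp h1).resolve_right h5
    rw [PiLp.inner_apply] at h6
    rw [← h6]
    refine sum_congr rfl fun x _ => ?_
    simp [mul_comm]
  have hfe := form_eq hM (fun x => (f x : ℂ))
  rw [form_real] at hfe
  have hpa := parseval hM (fun x => (f x : ℂ))
  have hnorm : ∑ x, ‖((f x : ℝ) : ℂ)‖ ^ 2 = ∑ x, f x ^ 2 := by
    refine sum_congr rfl fun x _ => ?_
    rw [Complex.norm_real, Real.norm_eq_abs, sq_abs]
  rw [hnorm] at hpa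
  rw [hfe, ← hpa, mul_sum] at hR
  have hge : ∀ j ∈ univ, R * ‖∑ x, star ((f x : ℝ) : ℂ) * hM.eigenvectorBasis j x‖ ^ 2 ≤
      hM.eigenvalues j * ‖∑ x, star ((f x : ℝ) : ℂ) * hM.eigenvectorBasis j x‖ ^ 2 := by
    intro j _
    by_cases hj : hM.eigenvalues j ≤ R
    · rw [hzero j hj]
      simp
    · push Not at hj
      exact mul_le_mul_of_nonneg_right hj.le (sq_nonneg _)
  have heq := (sum_eq_sum_iff_of_le hge).mp (le_antisymm (sum_le_sum hge) hR)
  have hall : ∀ j, ‖∑ x, star ((f x : ℝ) : ℂ) * hM.eigenvectorBasis j x‖ ^ 2 = 0 := by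
    intro j
    by_cases hj : hM.eigenvalues j ≤ R
    · rw [hzero j hj]
      simp
    · push Not at hj
      have h1 := heq j (mem_univ j)
      have h2 : (hM.eigenvalues j - R) *
          ‖∑ x, star ((f x : ℝ) : ℂ) * hM.eigenvectorBasis j x‖ ^ 2 = 0 := by
        rw [sub_mul]
        linarith
      exact (mul_eq_zero.mp h2).resolve_left (by linarith)
  rw [sum_congr rfl (fun j _ => hall j), sum_const_zero] at hpa
  linarith

/-- Fiedler's bound in the form `λ_2 ≤ 2 deg v`. -/
theorem lam2_le_degree (v : V) (hn : 2 ≤ Fintype.card V) : lam2 G ≤ 2 * G.degree v := by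
  set n : ℝ := ((Fintype.card V : ℕ) : ℝ) with hnd
  have hn' : (2 : ℝ) ≤ n := by
    rw [hnd]
    exact_mod_cast hn
  have hcard : ∑ _x : V, (1 : ℝ) = n := by simp [hnd]
  set f : V → ℝ := fun x => (if x = v then n else 0) - 1 with hf
  have hsum : ∑ x, f x = 0 := by
    simp only [hf, sum_sub_distrib]
    rw [hcard]
    simp
  have hsq : ∑ x, f x ^ 2 = n * (n - 1) := by
    have : ∀ x, f x ^ 2 = (if x = v then n * (n - 2) else 0) + 1 := by
      intro x
      simp only [hf]
      split_ifs <;> ring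
    simp_rw [this]
    rw [sum_add_distrib, hcard]
    simp
    ring
  have hen : en G f = n ^ 2 * G.degree v := by
    unfold en
    have h1 : ∀ x, f x * ∑ y ∈ G.neighborFinset x, (f x - f y) =
        (if x = v then (n - 1) * (n * G.degree v) else 0) +
        (if x ∈ G.neighborFinset v then n else 0) := by
      intro x
      have h2 : ∀ y, f x - f y = n * (if x = v then 1 else 0) - n * (if y = v then 1 else 0) := by
        intro y
        simp only [hf]
        split_ifs <;> ring
      simp_rw [h2]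
      rw [sum_sub_distrib, sum_const, ← mul_sum, G.card_neighborFinset_eq_degree, nsmul_eq_mul]
      by_cases hx : x = v
      · subst hx
        simp [hf]
        left
        ring
      · by_cases hxv : G.Adj x v
        · have h3 : x ∈ G.neighborFinset v := (G.mem_neighborFinset v x).mpr hxv.symm
          have h4 : v ∈ G.neighborFinset x := (G.mem_neighborFinset x v).mpr hxv
          rw [if_neg hx, if_neg hx, if_pos h3, sum_ite_eq' , if_pos h4]
          simp [hf, hx]
        · have h3 : x ∉ G.neighborFinset v := fun h =>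
            hxv ((G.mem_neighborFinset v x).mp h).symm
          have h4 : v ∉ G.neighborFinset x := fun h => hxv ((G.mem_neighborFinset x v).mp h)
          rw [if_neg hx, if_neg hx, if_neg h3, sum_ite_eq', if_neg h4]
          simp
    simp_rw [h1]
    rw [sum_add_distrib, sum_ite_eq', if_pos (mem_univ v), ← sum_filter, sum_const]
    have h5 : (univ.filter (fun x => x ∈ G.neighborFinset v)) = G.neighborFinset v := by
      ext y; simp
    rw [h5, G.card_neighborFinset_eq_degree, nsmul_eq_mul]
    ring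
  have hdeg0 : (0 : ℝ) ≤ G.degree v := Nat.cast_nonneg _
  refine lam2_le G hsum (by rw [hsq]; nlinarith) (by positivity) ?_
  rw [hsq, hen]
  nlinarith [mul_nonneg hdeg0 (mul_nonneg (by linarith : (0 : ℝ) ≤ n) (by linarith : 0 ≤ n - 2))]

/-- A chain gives a walk. -/
lemma exists_walk : ∀ (t : ℕ) (S : Finset V) (p v : V), p ∉ S → G.Adj p v → Chain G t S p v →
    ∃ w : ℕ → V, w 0 = p ∧ w 1 = v ∧ (∀ i ≤ t, G.Adj (w i) (w (i + 1))) ∧
      (∀ i, 1 ≤ i → i ≤ t → G.degree (w i) = 2 ∧ w i ∈ S ∧ w (i + 1) ≠ w (i - 1)) ∧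
      (∀ i ≤ t, ∀ j ≤ t, w i = w j → i = j) := by
  intro t
  induction t with
  | zero =>
    intro S p v _ hpv _
    refine ⟨fun i => if i = 0 then p else v, rfl, rfl, ?_, ?_, ?_⟩
    · intro i hi
      have : i = 0 := by omega
      subst this
      exact hpv
    · intro i h1 h2
      omega
    · intro i hi j hj _
      omega
  | succ t ih =>
    intro S p v hp hpv hch
    obtain ⟨h1, h2, u, h3, h4, h5⟩ := hch
    obtain ⟨w, hw0, hw1, hadj, hdeg, hinj⟩ := ih (S.erase v) v u (notMem_erase v S) h4 h5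
    refine ⟨fun i => if i = 0 then p else w (i - 1), rfl, hw0, ?_, ?_, ?_⟩
    · intro i hi
      rcases Nat.eq_zero_or_pos i with h0 | h0
      · subst h0
        show G.Adj p (w 0)
        rw [hw0]
        exact hpv
      · obtain ⟨i, rfl⟩ : ∃ k, i = k + 1 := ⟨i - 1, by omega⟩
        exact hadj i (by omega)
    · intro i hi1 hi2
      obtain ⟨i, rfl⟩ : ∃ k, i = k + 1 := ⟨i - 1, by omega⟩
      rcases Nat.eq_zero_or_pos i with h0 | h0
      · subst h0
        refine ⟨?_, ?_, ?_⟩
        · show G.degree (w 0) = 2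
          rw [hw0]; exact h1
        · show w 0 ∈ S
          rw [hw0]; exact h2
        · show w 1 ≠ p
          rw [hw1]; exact h3
      · obtain ⟨i, rfl⟩ : ∃ k, i = k + 1 := ⟨i - 1, by omega⟩
        obtain ⟨a, b, c⟩ := hdeg (i + 1) (by omega) (by omega)
        exact ⟨a, (mem_erase.mp b).2, c⟩
    · have key : ∀ j ≤ t, w j ≠ p := by
        intro j hj h
        rcases Nat.eq_zero_or_pos j with h0 | h0
        · subst h0
          rw [hw0] at h
          exact hpv.ne h.symm
        · have := (mem_erase.mp (hdeg j (by omega) hj).2.1).2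
          rw [h] at this
          exact hp this
      intro i hi j hj hij
      rcases Nat.eq_zero_or_pos i with h0 | h0
      · subst h0
        rcases Nat.eq_zero_or_pos j with h0' | h0'
        · exact h0'.symm
        · simp only [if_pos rfl, if_neg h0'.ne', if_true] at hij
          exact absurd hij.symm (key (j - 1) (by omega))
      · rcases Nat.eq_zero_or_pos j with h0' | h0'
        · subst h0'
          simp only [if_neg h0.ne', if_true] at hij
          exact absurd hij (key (i - 1) (by omega))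
        · simp only [if_neg h0'.ne', if_neg h0.ne'] at hij
          have := hinj (i - 1) (by omega) (j - 1) (by omega) hij
          omega

/-- the profile of the test function -/
noncomputable def ph (N i : ℝ) : ℝ := i * (N - i) * (N - 2 * i)

lemma sum_ph (N : ℝ) (k : ℕ) : ∑ i ∈ range (k + 1), ph N i =
    N ^ 2 * (k * (k + 1) / 2) - 3 * N * (k * (k + 1) * (2 * k + 1) / 6) +
      2 * (k * (k + 1) / 2) ^ 2 := by
  induction k with
  | zero => simp [ph]
  | succ k ih =>
    rw [sum_range_succ, ih]
    unfold ph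
    push_cast
    ring

lemma sum_ph_sq (N : ℝ) (k : ℕ) : ∑ i ∈ range (k + 1), ph N i ^ 2 =
    N ^ 4 * (k * (k + 1) * (2 * k + 1) / 6) - 6 * N ^ 3 * (k * (k + 1) / 2) ^ 2 +
      13 * N ^ 2 * (k * (k + 1) * (2 * k + 1) * (3 * k ^ 2 + 3 * k - 1) / 30) -
      12 * N * (k ^ 2 * (k + 1) ^ 2 * (2 * k ^ 2 + 2 * k - 1) / 12) +
      4 * (k * (k + 1) * (2 * k + 1) * (3 * k ^ 4 + 6 * k ^ 3 - 3 * k + 1) / 42) := by
  induction k with
  | zero => simp [ph]
  | succ k ih =>
    rw [sum_range_succ, ih]
    unfold ph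
    push_cast
    ring

lemma sum_en (N : ℝ) (k : ℕ) : ∑ i ∈ range (k + 1), ph N i * (6 * (N - 2 * i)) =
    6 * (N ^ 3 * (k * (k + 1) / 2) - 5 * N ^ 2 * (k * (k + 1) * (2 * k + 1) / 6) +
      8 * N * (k * (k + 1) / 2) ^ 2 -
      4 * (k * (k + 1) * (2 * k + 1) * (3 * k ^ 2 + 3 * k - 1) / 30)) := by
  induction k with
  | zero => simp [ph]
  | succ k ih =>
    rw [sum_range_succ, ih]
    unfold ph
    push_cast
    ring

theorem lam2_le_chain {K : ℕ} (hK2 : 2 ≤ K) {p v : V} (hpv : G.Adj p v)
    (hch : Chain G K (univ.erase p) p v) : lam2 G ≤ 42 / ((K : ℝ) + 1) ^ 2 := by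
  obtain ⟨w, hw0, hw1, hadj, hdeg, hinj⟩ := exists_walk G K (univ.erase p) p v
    (notMem_erase p _) hpv hch
  set N : ℝ := (K : ℝ) + 1 with hN
  have hK2' : (2 : ℝ) ≤ K := by exact_mod_cast hK2
  have hneigh : ∀ i, 1 ≤ i → i ≤ K → G.neighborFinset (w i) = {w (i - 1), w (i + 1)} := by
    intro i hi1 hi2
    symm
    apply eq_of_subset_of_card_le
    · intro y hy
      rw [mem_insert, mem_singleton] at hy
      rw [G.mem_neighborFinset]
      rcases hy with rfl | rfl
      · have := hadj (i - 1) (by omega)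
        rw [Nat.sub_add_cancel hi1] at this
        exact this.symm
      · exact hadj i hi2
    · rw [G.card_neighborFinset_eq_degree, (hdeg i hi1 hi2).1,
        card_pair (hdeg i hi1 hi2).2.2.symm]
  have hlast : ∀ i, 1 ≤ i → i ≤ K → w (K + 1) ≠ w i := by
    intro i hi1 hi2 h
    have h1 := hadj K le_rfl
    rw [h] at h1
    have h2 : w K ∈ G.neighborFinset (w i) := (G.mem_neighborFinset _ _).mpr h1.symm
    rw [hneigh i hi1 hi2, mem_insert, mem_singleton] at h2
    have hiK : i ≠ K := by
      rintro rfl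
      exact h1.ne rfl
    rcases h2 with h2 | h2
    · have := hinj K le_rfl (i - 1) (by omega) h2
      omega
    · have h3 := hinj K le_rfl (i + 1) (by omega) h2
      have h4 := (hdeg K (by omega) le_rfl).2.2
      apply h4
      rw [h]
      congr 1
      omega
  set f : V → ℝ := fun x => ∑ i ∈ range (K + 1), if w i = x then ph N i else 0 with hf
  have hph0 : ph N 0 = 0 := by simp [ph]
  have hphK : ph N ((K + 1 : ℕ) : ℝ) = 0 := by
    unfold ph
    push_cast
    rw [← hN]
    ring
  have hfw : ∀ j, j ≤ K + 1 → f (w j) = ph N j := by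
    intro j hj
    simp only [hf]
    rcases Nat.lt_or_ge j (K + 1) with h | h
    · rw [sum_eq_single j]
      · rw [if_pos rfl]
      · intro i hi hij
        rw [mem_range] at hi
        rw [if_neg]
        intro h'
        exact hij (hinj i (by omega) j (by omega) h')
      · intro h'
        exact absurd (mem_range.mpr h) h'
    · have hjK : j = K + 1 := by omega
      subst hjK
      rw [hphK]
      apply sum_eq_zero
      intro i hi
      rw [mem_range] at hi
      rcases Nat.eq_zero_or_pos i with h0 | h0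
      · subst h0
        split_ifs
        · exact_mod_cast hph0
        · rfl
      · rw [if_neg]
        exact fun h' => hlast i h0 (by omega) h'.symm
  have hswap : ∀ F : V → ℝ, ∑ x, f x * F x = ∑ i ∈ range (K + 1), ph N i * F (w i) := by
    intro F
    simp only [hf, sum_mul]
    rw [sum_comm]
    refine sum_congr rfl fun i _ => ?_
    simp only [ite_mul, zero_mul]
    rw [sum_ite_eq, if_pos (mem_univ _)]
  have hsum : ∑ x, f x = 0 := by
    have h1 := hswap (fun _ => 1)
    simp only [mul_one] at h1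
    rw [h1, sum_ph, hN]
    ring
  have hsq : ∑ x, f x ^ 2 = N * (N ^ 2 - 1) * (N ^ 2 - 4) * (N ^ 2 + 5) / 210 := by
    have h1 := hswap f
    have h2 : ∑ x, f x ^ 2 = ∑ x, f x * f x := sum_congr rfl fun x _ => by ring
    have h3 : ∑ i ∈ range (K + 1), ph N i * f (w i) = ∑ i ∈ range (K + 1), ph N i ^ 2 := by
      refine sum_congr rfl fun i hi => ?_
      rw [mem_range] at hi
      rw [hfw i (by omega)]
      ring
    rw [h2, h1, h3, sum_ph_sq, hN]
    ring
  have hen : en G f = N * (N ^ 2 - 1) * (N ^ 2 - 4) / 5 := by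
    unfold en
    rw [hswap (fun x => ∑ y ∈ G.neighborFinset x, (f x - f y))]
    have h3 : ∑ i ∈ range (K + 1), ph N i * ∑ y ∈ G.neighborFinset (w i), (f (w i) - f y) =
        ∑ i ∈ range (K + 1), ph N i * (6 * (N - 2 * i)) := by
      refine sum_congr rfl fun i hi => ?_
      rw [mem_range] at hi
      rcases Nat.eq_zero_or_pos i with h0 | h0
      · subst h0
        have : ph N ((0 : ℕ) : ℝ) = 0 := by exact_mod_cast hph0
        rw [this, zero_mul, zero_mul]
      · rw [hneigh i h0 (by omega), sum_pair (hdeg i h0 (by omega)).2.2.symm, hfw i (by omega),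
          hfw (i - 1) (by omega), hfw (i + 1) (by omega)]
        congr 1
        unfold ph
        rw [Nat.cast_sub h0]
        push_cast
        ring
    rw [h3, sum_en, hN]
    ring
  have hNpos : 3 ≤ N := by rw [hN]; linarith
  have hN2 : 9 ≤ N ^ 2 := by nlinarith
  have hbase : 0 < N * (N ^ 2 - 1) * (N ^ 2 - 4) := by
    apply mul_pos (mul_pos _ _) _ <;> linarith
  refine lam2_le G hsum ?_ (by positivity) ?_
  · rw [hsq]
    apply div_pos (mul_pos hbase (by linarith)) (by norm_num)
  · rw [hsq, hen]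
    rw [div_mul_eq_mul_div, le_div_iff₀ (by positivity)]
    nlinarith

end Pool.Agent.X172.MSS
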