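import Pool.Agent.X172.MSS.Match
import Pool.Agent.X172.MagLap

/-!
From a non-backtracking certificate to a lower bound of the magneto-spectral height.
-/

namespace Pool.Agent.X172.MSS

open Finset Polynomial Matrix H990SF Pool.Agent.X172.MagLap

variable {V : Type} [Fintype V] [DecidableEq V] [Nonempty V]

theorem nu_of_pos (G : SimpleGraph V) [DecidableRel G.Adj] (c : ℝ)
    (h : ∀ L, EdgeList G L → ∀ x : ℝ, x ≤ c → g (fun v => (G.degree v : ℝ) - x) L univ ≠ 0) :
    c ≤ nu G := by
  obtain ⟨L, hL⟩ := exists_edgeList G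
  have hne : ∀ e ∈ L, e.1 ≠ e.2 := fun e he => (hL.1.2 e he).1
  have hA : Abv c (fp (Matrix.diagonal (fun v => (G.degree v : ℝ))) L) :=
    Abv_diag _ L hne c (h L hL)
  obtain ⟨H', hsym, hA', hent, hsgn⟩ := exists_signing L hL.1 _
    (Matrix.isSymm_diagonal (fun v => (G.degree v : ℝ))) hA
  have hsym' : ∀ i j, H' j i = H' i j := fun i j => congrFun (congrFun hsym i) j
  have hadj : ∀ x y, G.Adj x y → H' x y = 1 ∨ H' x y = -1 := by
    intro x y hxy
    have key : ∀ a b, (a, b) ∈ L → H' a b = 1 ∨ H' a b = -1 := by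
      intro a b hab
      have h1 := hsgn (a, b) hab
      simp only at h1
      rw [Matrix.diagonal_apply_ne _ (hne (a, b) hab)] at h1
      rcases h1 with h1 | h1
      · left; linarith
      · right; linarith
    rcases (hL.2 x y).mp hxy with h1 | h1
    · exact key x y h1
    · rw [← hsym' x y]
      exact key y x h1
  have hdiag : ∀ x, H' x x = G.degree x := by
    intro x
    have h1 : (x, x) ∉ L := fun hx => hne (x, x) hx rfl
    rw [hent x x h1 h1, Matrix.diagonal_apply_eq]
  have hoff : ∀ x y, x ≠ y → ¬ G.Adj x y → H' x y = 0 := by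
    intro x y hxy hn
    rw [hent x y (fun h1 => hn ((hL.2 x y).mpr (Or.inl h1)))
      (fun h1 => hn ((hL.2 x y).mpr (Or.inr h1))), Matrix.diagonal_apply_ne _ hxy]
  set σ : V → V → ℂ := fun x y => -((H' x y : ℝ) : ℂ) with hσ
  have hpot : IsPotential G σ := by
    intro x y hxy
    simp only [hσ]
    rw [hsym' x y]
    rcases hadj x y hxy with h1 | h1
    · rw [h1]; norm_num
    · rw [h1]; norm_num
  have hlap : lap G σ = H'.map (algebraMap ℝ ℂ) := by
    ext x y
    rw [Matrix.map_apply]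
    unfold lap
    by_cases hxy : x = y
    · subst hxy
      rw [if_pos rfl, hdiag]
      simp
    · rw [if_neg hxy]
      by_cases h1 : G.Adj x y
      · rw [if_pos h1]
        simp [hσ]
      · rw [if_neg h1, hoff x y hxy h1]
        simp
  refine le_nu hpot ?_
  unfold lam1
  apply le_ciInf
  intro i
  by_contra hcon
  push Not at hcon
  apply hA' _ hcon.le
  have h1 := (lap_hermitian hpot).charpoly_eq
  have h2 : (lap G σ).charpoly.eval (((lap_hermitian hpot).eigenvalues i : ℝ) : ℂ) = 0 := by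
    rw [h1, eval_prod]
    apply prod_eq_zero (mem_univ i)
    simp
  have h3 : (lap G σ).charpoly = H'.charpoly.map (algebraMap ℝ ℂ) := by
    rw [hlap, Matrix.charpoly_map]
  rw [h3] at h2
  have h4 := eval_map_apply (algebraMap ℝ ℂ) (p := H'.charpoly) ((lap_hermitian hpot).eigenvalues i)
  rw [Complex.coe_algebraMap] at h4
  rw [h4] at h2
  exact_mod_cast h2

theorem nu_of_cert (G : SimpleGraph V) [DecidableRel G.Adj] (c : ℝ)
    (h : ∀ x : ℝ, x ≤ c → ∃ ρ : V → V → ℝ, (∀ v p, G.Adj v p → 0 < ρ v p) ∧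
      (∀ v p, G.Adj v p → ρ v p ≤ (G.degree v : ℝ) - x -
        ∑ u ∈ (G.neighborFinset v).erase p, 1 / ρ u v) ∧
      (∀ v, 0 < (G.degree v : ℝ) - x - ∑ u ∈ G.neighborFinset v, 1 / ρ u v)) :
    c ≤ nu G := by
  apply nu_of_pos
  intro L hL x hx
  obtain ⟨ρ, h1, h2, h3⟩ := h x hx
  exact ((g_pos G hL (fun v => (G.degree v : ℝ) - x) ρ h1 h2 h3 _ univ rfl).1).ne'

end Pool.Agent.X172.MSS
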