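import Pool.Agent.X172.MSS.Sign

/-!
The matching polynomial with vertex weights and the Heilmann-Lieb type positivity.
-/

namespace Pool.Agent.X172.MSS

open Finset Polynomial Matrix H990SF

variable {V : Type*} [DecidableEq V] {R : Type*} [CommRing R]

/-- `∑_M (-1)^{|M|} ∏_{v ∈ S \ V(M)} a v` over the matchings `M ⊆ L` inside `S` -/
def g (a : V → R) : List (V × V) → Finset V → R
  | [], S => ∏ v ∈ S, a v
  | e :: L, S => g a L S - if e.1 ∈ S ∧ e.2 ∈ S then g a L ((S.erase e.1).erase e.2) else 0

lemma map_g {R' : Type*} [CommRing R'] (φ : R →+* R') (a : V → R) (L : List (V × V)) :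
    ∀ S, φ (g a L S) = g (fun v => φ (a v)) L S := by
  induction L with
  | nil => intro S; simp [g]
  | cons e L ih =>
    intro S
    simp only [g]
    rw [map_sub, ih]
    congr 1
    split_ifs
    · exact ih _
    · exact map_zero φ

lemma list_sum_sub {α : Type*} (L : List α) (f h : α → R) :
    (L.map f).sum - (L.map h).sum = (L.map (fun e => f e - h e)).sum := by
  induction L with
  | nil => simp
  | cons e L ih => simp only [List.map_cons, List.sum_cons]; rw [← ih]; ring

/-- the vertex recursion -/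
theorem g_vertex (a : V → R) (L : List (V × V)) (hL : ∀ e ∈ L, e.1 ≠ e.2) : ∀ (S : Finset V) (v : V),
    v ∈ S → g a L S = a v * g a L (S.erase v) - (L.map (fun e => if (e.1 = v ∨ e.2 = v) ∧
      (e.1 ∈ S ∧ e.2 ∈ S) then g a L ((S.erase e.1).erase e.2) else 0)).sum := by
  induction L with
  | nil =>
    intro S v hv
    simp only [g, List.map_nil, List.sum_nil, sub_zero]
    rw [mul_prod_erase S a hv]
  | cons e L ih =>
    intro S v hv
    have hL' : ∀ e ∈ L, e.1 ≠ e.2 := fun e he => hL e (List.mem_cons_of_mem _ he)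
    have ih' := ih hL'
    have hee : e.1 ≠ e.2 := hL e (List.mem_cons_self)
    rw [List.map_cons, List.sum_cons]
    have hself : g a (e :: L) ((S.erase e.1).erase e.2) = g a L ((S.erase e.1).erase e.2) := by
      simp only [g]
      rw [if_neg (by simp), sub_zero]
    rw [hself]
    by_cases hve : e.1 = v ∨ e.2 = v
    · -- `v` belongs to `e`
      have h1 : g a (e :: L) (S.erase v) = g a L (S.erase v) := by
        simp only [g]
        rw [if_neg, sub_zero]
        rintro ⟨h2, h3⟩
        rcases hve with h | h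
        · exact (mem_erase.mp h2).1 h
        · exact (mem_erase.mp h3).1 h
      have h2 : (L.map (fun e' => if (e'.1 = v ∨ e'.2 = v) ∧ (e'.1 ∈ S ∧ e'.2 ∈ S) then
          g a (e :: L) ((S.erase e'.1).erase e'.2) else 0)) =
          (L.map (fun e' => if (e'.1 = v ∨ e'.2 = v) ∧ (e'.1 ∈ S ∧ e'.2 ∈ S) then
          g a L ((S.erase e'.1).erase e'.2) else 0)) := by
        refine List.map_congr_left fun e' _ => ?_
        split_ifs with h3
        · simp only [g]
          rw [if_neg, sub_zero]
          rintro ⟨h4, h5⟩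
          rw [mem_erase, mem_erase] at h4 h5
          rcases hve with h | h <;> rcases h3.1 with h' | h'
          · exact h4.2.1 (h.trans h'.symm)
          · exact h4.1 (h.trans h'.symm)
          · exact h5.2.1 (h.trans h'.symm)
          · exact h5.1 (h.trans h'.symm)
        · rfl
      rw [h1, h2]
      have h3 := ih' S v hv
      have h4 : g a (e :: L) S = g a L S -
          if e.1 ∈ S ∧ e.2 ∈ S then g a L ((S.erase e.1).erase e.2) else 0 := rfl
      rw [h4, h3]
      by_cases h5 : e.1 ∈ S ∧ e.2 ∈ S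
      · rw [if_pos h5, if_pos ⟨hve, h5⟩]
        ring
      · rw [if_neg h5, if_neg (fun h => h5 h.2)]
        ring
    · rw [if_neg (fun h => hve h.1), zero_add]
      have h4 : g a (e :: L) S = g a L S -
          if e.1 ∈ S ∧ e.2 ∈ S then g a L ((S.erase e.1).erase e.2) else 0 := rfl
      have hm1 : e.1 ≠ v := fun h => hve (Or.inl h)
      have hm2 : e.2 ≠ v := fun h => hve (Or.inr h)
      have h5 : g a (e :: L) (S.erase v) = g a L (S.erase v) -
          if e.1 ∈ S ∧ e.2 ∈ S then g a L (((S.erase e.1).erase e.2).erase v) else 0 := by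
        simp only [g]
        congr 1
        by_cases h6 : e.1 ∈ S ∧ e.2 ∈ S
        · rw [if_pos h6, if_pos ⟨mem_erase.mpr ⟨hm1, h6.1⟩, mem_erase.mpr ⟨hm2, h6.2⟩⟩]
          congr 1
          ext w
          simp only [mem_erase]
          tauto
        · rw [if_neg h6, if_neg]
          rintro ⟨h7, h8⟩
          exact h6 ⟨(mem_erase.mp h7).2, (mem_erase.mp h8).2⟩
      have h6 : (L.map (fun e' => if (e'.1 = v ∨ e'.2 = v) ∧ (e'.1 ∈ S ∧ e'.2 ∈ S) then
          g a (e :: L) ((S.erase e'.1).erase e'.2) else 0)).sum =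
          (L.map (fun e' => if (e'.1 = v ∨ e'.2 = v) ∧ (e'.1 ∈ S ∧ e'.2 ∈ S) then
          g a L ((S.erase e'.1).erase e'.2) else 0)).sum -
          (if e.1 ∈ S ∧ e.2 ∈ S then (L.map (fun e' => if (e'.1 = v ∨ e'.2 = v) ∧
          (e'.1 ∈ (S.erase e.1).erase e.2 ∧ e'.2 ∈ (S.erase e.1).erase e.2) then
          g a L ((((S.erase e.1).erase e.2).erase e'.1).erase e'.2) else 0)).sum else 0) := by
        by_cases h7 : e.1 ∈ S ∧ e.2 ∈ S
        · rw [if_pos h7, list_sum_sub]
          congr 1
          refine List.map_congr_left fun e' _ => ?_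
          by_cases h8 : (e'.1 = v ∨ e'.2 = v) ∧ (e'.1 ∈ S ∧ e'.2 ∈ S)
          · rw [if_pos h8, if_pos h8]
            simp only [g]
            congr 1
            have hiff : (e.1 ∈ (S.erase e'.1).erase e'.2 ∧ e.2 ∈ (S.erase e'.1).erase e'.2) ↔
                ((e'.1 = v ∨ e'.2 = v) ∧
                (e'.1 ∈ (S.erase e.1).erase e.2 ∧ e'.2 ∈ (S.erase e.1).erase e.2)) := by
              simp only [mem_erase]
              have h81 := h8.1
              have h82 := h8.2.1
              have h83 := h8.2.2
              have h71 := h7.1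
              have h72 := h7.2
              constructor
              · rintro ⟨⟨q1, q2, -⟩, q3, q4, -⟩
                exact ⟨h81, ⟨fun h => q4 h.symm, fun h => q2 h.symm, h82⟩,
                  fun h => q3 h.symm, fun h => q1 h.symm, h83⟩
              · rintro ⟨-, ⟨q1, q2, -⟩, q3, q4, -⟩
                exact ⟨⟨fun h => q4 h.symm, fun h => q2 h.symm, h71⟩,
                  fun h => q3 h.symm, fun h => q1 h.symm, h72⟩
            by_cases h9 : (e.1 ∈ (S.erase e'.1).erase e'.2 ∧ e.2 ∈ (S.erase e'.1).erase e'.2)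
            · rw [if_pos h9, if_pos (hiff.mp h9)]
              congr 1
              ext w
              simp only [mem_erase]
              tauto
            · rw [if_neg h9, if_neg (fun h => h9 (hiff.mpr h))]
          · rw [if_neg h8, if_neg h8, if_neg, sub_zero]
            intro h9
            simp only [mem_erase] at h9
            exact h8 ⟨h9.1, h9.2.1.2.2, h9.2.2.2.2⟩
        · rw [if_neg h7, sub_zero]
          congr 1
          refine List.map_congr_left fun e' _ => ?_
          by_cases h8 : (e'.1 = v ∨ e'.2 = v) ∧ (e'.1 ∈ S ∧ e'.2 ∈ S)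
          · rw [if_pos h8, if_pos h8]
            simp only [g]
            rw [if_neg, sub_zero]
            intro h9
            simp only [mem_erase] at h9
            exact h7 ⟨h9.1.2.2, h9.2.2.2⟩
          · rw [if_neg h8, if_neg h8]
      rw [h4, h5, h6, ih' S v hv]
      by_cases h7 : e.1 ∈ S ∧ e.2 ∈ S
      · rw [if_pos h7, if_pos h7, if_pos h7, ih' ((S.erase e.1).erase e.2) v
          (mem_erase.mpr ⟨hm2.symm, mem_erase.mpr ⟨hm1.symm, hv⟩⟩)]
        ring
      · rw [if_neg h7, if_neg h7, if_neg h7]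
        ring

lemma g_empty (a : V → R) (L : List (V × V)) : g a L ∅ = 1 := by
  induction L with
  | nil => simp [g]
  | cons e L ih => simp [g, ih]

/-- the product over `S` -/
noncomputable def fS (d : V → ℂ) (S : Finset V) : (V → ℂ) → ℂ := fun z => ∏ v ∈ S, (z v + d v)

lemma pd_fS (d : V → ℂ) (S : Finset V) (i : V) :
    pd i (fS d S) = if i ∈ S then fS d (S.erase i) else fun _ => 0 := by
  funext z
  by_cases hi : i ∈ S
  · rw [if_pos hi]
    unfold pd fS
    rw [← mul_prod_erase S _ hi, ← mul_prod_erase S _ hi]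
    have h : ∀ t : ℂ, ∏ v ∈ S.erase i, (Function.update z i t v + d v) =
        ∏ v ∈ S.erase i, (z v + d v) := by
      intro t
      refine prod_congr rfl fun v hv => ?_
      rw [Function.update_of_ne (mem_erase.mp hv).1]
    rw [h, h, Function.update_self, Function.update_self]
    ring
  · rw [if_neg hi]
    unfold pd fS
    have h : ∀ t : ℂ, ∏ v ∈ S, (Function.update z i t v + d v) =
        ∏ v ∈ S, (z v + d v) := by
      intro t
      refine prod_congr rfl fun v hv => ?_
      have hne : v ≠ i := by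
        rintro rfl
        exact hi hv
      rw [Function.update_of_ne hne]
    rw [h, h, sub_self]

lemma pd_zero_fun (i : V) : pd i (fun _ : V → ℂ => (0 : ℂ)) = fun _ => 0 := by
  funext z
  simp [pd]

lemma op1_fS (d : V → ℂ) (S : Finset V) (e : V × V) (he : e.1 ≠ e.2) :
    op1 e (fS d S) = if e.1 ∈ S ∧ e.2 ∈ S then
      (fun z => 1 * fS d S z + (-1) * fS d ((S.erase e.1).erase e.2) z) else fS d S := by
  funext z
  unfold op1
  rw [pd_fS]
  by_cases h2 : e.2 ∈ S
  · rw [if_pos h2, pd_fS]
    by_cases h1 : e.1 ∈ S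
    · rw [if_pos (mem_erase.mpr ⟨he, h1⟩), if_pos ⟨h1, h2⟩, erase_right_comm]
      ring
    · rw [if_neg (fun h => h1 (mem_erase.mp h).2), if_neg (fun h => h1 h.1)]
      simp
  · rw [if_neg h2, pd_zero_fun, if_neg (fun h => h2 h.2)]
    simp

lemma ops_fS (d : V → ℂ) (L : List (V × V)) (hL : ∀ e ∈ L, e.1 ≠ e.2) : ∀ (S : Finset V)
    (z : V → ℂ), ops L (fS d S) z = g (fun v => z v + d v) L S := by
  induction L with
  | nil => intro S z; rfl
  | cons e L ih =>
    intro S z
    have ih' := ih (fun e' he' => hL e' (List.mem_cons_of_mem _ he'))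
    rw [ops, ← ops_op1, op1_fS d S e (hL e (List.mem_cons_self))]
    simp only [g]
    by_cases h : e.1 ∈ S ∧ e.2 ∈ S
    · rw [if_pos h, if_pos h, ops_lin]
      simp only
      rw [ih', ih']
      ring
    · rw [if_neg h, if_neg h, ih', sub_zero]

lemma FD_diag [Fintype V] (d : V → ℝ) :
    FD (cx (Matrix.diagonal d)) = fS (fun v => (d v : ℂ)) univ := by
  funext z
  unfold FD fS cx
  rw [Matrix.diagonal_map (by simp), Matrix.diagonal_add, Matrix.det_diagonal]

theorem eval_fp_diag [Fintype V] (d : V → ℝ) (L : List (V × V)) (hL : ∀ e ∈ L, e.1 ≠ e.2)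
    (x : ℝ) : (fp (Matrix.diagonal d) L).eval x =
      (-1) ^ (Fintype.card V) * g (fun v => d v - x) L univ := by
  have h := aeval_fp L hL (Matrix.diagonal d) (x : ℂ)
  rw [FD_diag, ops_fS _ L hL] at h
  have h2 : aeval (x : ℂ) (fp (Matrix.diagonal d) L) =
      (((fp (Matrix.diagonal d) L).eval x : ℝ) : ℂ) := by
    rw [← Complex.coe_algebraMap, aeval_algebraMap_apply, coe_aeval_eq_eval]
  rw [h2] at h
  have h3 : g (fun v => -(x : ℂ) + (d v : ℂ)) L univ = ((g (fun v => d v - x) L univ : ℝ) : ℂ) := by
    have := map_g Complex.ofRealHom (fun v => d v - x) L univ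
    rw [Complex.ofRealHom_eq_coe] at this
    rw [this]
    congr 1
    funext v
    simp
    ring
  rw [h3] at h
  exact_mod_cast h

theorem Abv_diag [Fintype V] (d : V → ℝ) (L : List (V × V)) (hL : ∀ e ∈ L, e.1 ≠ e.2) (c : ℝ)
    (h : ∀ x : ℝ, x ≤ c → g (fun v => d v - x) L univ ≠ 0) : Abv c (fp (Matrix.diagonal d) L) := by
  intro x hx h0
  rw [eval_fp_diag d L hL] at h0
  exact h x hx ((mul_eq_zero.mp h0).resolve_left (pow_ne_zero _ (by norm_num)))

/-- a list of all edges of `G`, each in one orientation -/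
def EdgeList (G : SimpleGraph V) (L : List (V × V)) : Prop :=
  Good L ∧ ∀ x y, G.Adj x y ↔ ((x, y) ∈ L ∨ (y, x) ∈ L)

omit [DecidableEq V] in
lemma exists_edgeList [Fintype V] (G : SimpleGraph V) : ∃ L, EdgeList G L := by
  classical
  let f := Fintype.equivFin V
  refine ⟨(univ.filter (fun p : V × V => G.Adj p.1 p.2 ∧ f p.1 < f p.2)).toList,
    ⟨Finset.nodup_toList _, ?_⟩, ?_⟩
  · intro e he
    rw [mem_toList, mem_filter] at he
    refine ⟨fun h => ?_, ?_⟩
    · have := he.2.2
      rw [h] at this
      exact lt_irrefl _ this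
    · rw [mem_toList, mem_filter]
      intro h
      exact lt_asymm he.2.2 h.2.2
  · intro x y
    rw [mem_toList, mem_toList, mem_filter, mem_filter]
    constructor
    · intro h
      rcases lt_trichotomy (f x) (f y) with h1 | h1 | h1
      · exact Or.inl ⟨mem_univ _, h, h1⟩
      · exact absurd (f.injective h1) h.ne
      · exact Or.inr ⟨mem_univ _, h.symm, h1⟩
    · rintro (h | h)
      · exact h.2.1
      · exact h.2.1.symm

/-- the vertex recursion in terms of neighbours -/
theorem g_graph (G : SimpleGraph V) [DecidableRel G.Adj] {L : List (V × V)} (hL : EdgeList G L)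
    (a : V → R) (S : Finset V) {v : V} (hv : v ∈ S) :
    g a L S = a v * g a L (S.erase v) -
      ∑ u ∈ S.filter (fun u => G.Adj v u), g a L ((S.erase v).erase u) := by
  rw [g_vertex a L (fun e he => (hL.1.2 e he).1) S v hv]
  congr 1
  rw [← List.sum_toFinset _ hL.1.1, ← sum_filter]
  refine sum_nbij' (fun e => if e.1 = v then e.2 else e.1)
    (fun u => if (v, u) ∈ L then (v, u) else (u, v)) ?_ ?_ ?_ ?_ ?_
  · intro e he
    rw [mem_filter, List.mem_toFinset] at he
    rw [mem_filter]
    by_cases h : e.1 = v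
    · rw [if_pos h]
      refine ⟨he.2.2.2, ?_⟩
      rw [← h]
      exact (hL.2 _ _).mpr (Or.inl he.1)
    · rw [if_neg h]
      refine ⟨he.2.2.1, ?_⟩
      rw [← he.2.1.resolve_left h]
      exact (hL.2 _ _).mpr (Or.inr he.1)
  · intro u hu
    rw [mem_filter] at hu
    rw [mem_filter, List.mem_toFinset]
    by_cases h : (v, u) ∈ L
    · rw [if_pos h]
      exact ⟨h, Or.inl rfl, hv, hu.1⟩
    · rw [if_neg h]
      exact ⟨((hL.2 _ _).mp hu.2).resolve_left h, Or.inr rfl, hu.1, hv⟩
  · intro e he
    rw [mem_filter, List.mem_toFinset] at he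
    by_cases h : e.1 = v
    · simp only [if_pos h]
      have : (v, e.2) = e := by rw [← h]
      rw [this, if_pos he.1]
    · simp only [if_neg h]
      have h2 := he.2.1.resolve_left h
      have : (e.1, v) = e := by rw [← h2]
      rw [if_neg, this]
      intro h3
      have h4 := (hL.1.2 e he.1).2
      rw [h2] at h4
      exact h4 h3
  · intro u hu
    rw [mem_filter] at hu
    by_cases h : (v, u) ∈ L
    · simp only [if_pos h, if_true]
    · simp only [if_neg h]
      rw [if_neg hu.2.ne']
  · intro e he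
    rw [mem_filter, List.mem_toFinset] at he
    by_cases h : e.1 = v
    · simp only [if_pos h]
      rw [h]
    · simp only [if_neg h]
      have h2 := he.2.1.resolve_left h
      rw [h2, erase_right_comm]

/-- The Heilmann-Lieb type positivity (with a general non-backtracking certificate). -/
theorem g_pos (G : SimpleGraph V) [DecidableRel G.Adj] [Fintype V] {L : List (V × V)}
    (hL : EdgeList G L) (a : V → ℝ) (ρ : V → V → ℝ)
    (hpos : ∀ v p, G.Adj v p → 0 < ρ v p)
    (hρ : ∀ v p, G.Adj v p → ρ v p ≤ a v - ∑ u ∈ (G.neighborFinset v).erase p, 1 / ρ u v)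
    (hroot : ∀ v, 0 < a v - ∑ u ∈ G.neighborFinset v, 1 / ρ u v) :
    ∀ (n : ℕ) (S : Finset V), S.card = n → 0 < g a L S ∧ ∀ v ∈ S, ∀ p, p ∉ S → G.Adj v p →
      ρ v p * g a L (S.erase v) ≤ g a L S := by
  intro n
  induction n with
  | zero =>
    intro S hS
    rw [card_eq_zero] at hS
    subst hS
    refine ⟨by rw [g_empty]; exact one_pos, fun v hv => absurd hv (notMem_empty v)⟩
  | succ n ih =>
    intro S hS
    have key : ∀ v ∈ S, ∀ T : Finset V, S.filter (fun u => G.Adj v u) ⊆ T →
        T ⊆ G.neighborFinset v →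
        (a v - ∑ u ∈ T, 1 / ρ u v) * g a L (S.erase v) ≤ g a L S := by
      intro v hv T hT hT2
      obtain ⟨h1, h2⟩ := ih (S.erase v) (by rw [card_erase_of_mem hv, hS]; rfl)
      rw [g_graph G hL a S hv, sub_mul]
      refine sub_le_sub_left ?_ _
      rw [sum_mul]
      refine (sum_le_sum (g := fun u => 1 / ρ u v * g a L (S.erase v)) ?_).trans
        (sum_le_sum_of_subset_of_nonneg hT ?_)
      · intro u hu
        rw [mem_filter] at hu
        have h3 := h2 u (mem_erase.mpr ⟨hu.2.ne', hu.1⟩) v (notMem_erase v S) hu.2.symm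
        have h4 := hpos u v hu.2.symm
        rw [div_mul_eq_mul_div, one_mul, le_div_iff₀ h4, mul_comm]
        exact h3
      · intro u hu _
        have h5 := hpos u v ((G.mem_neighborFinset v u).mp (hT2 hu)).symm
        positivity
    have hposS : 0 < g a L S := by
      obtain ⟨v, hv⟩ : S.Nonempty := by
        rw [← card_pos]
        omega
      obtain ⟨h1, _⟩ := ih (S.erase v) (by rw [card_erase_of_mem hv, hS]; rfl)
      have h2 := key v hv (G.neighborFinset v) (by
        intro u hu
        rw [mem_filter] at hu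
        exact (G.mem_neighborFinset v u).mpr hu.2) (Finset.Subset.refl _)
      exact lt_of_lt_of_le (mul_pos (hroot v) h1) h2
    refine ⟨hposS, ?_⟩
    intro v hv p hp hvp
    obtain ⟨h1, _⟩ := ih (S.erase v) (by rw [card_erase_of_mem hv, hS]; rfl)
    have h2 := key v hv ((G.neighborFinset v).erase p) (by
      intro u hu
      rw [mem_filter] at hu
      refine mem_erase.mpr ⟨?_, (G.mem_neighborFinset v u).mpr hu.2⟩
      rintro rfl
      exact hp hu.1) (erase_subset _ _)
    exact (mul_le_mul_of_nonneg_right (hρ v p hvp) h1.le).trans h2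

end Pool.Agent.X172.MSS
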