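import Pool.Agent.X172.MSS.Det

/-!
Mixed characteristic polynomials of random signings: real-rootedness of all mixtures.
-/

namespace Pool.Agent.X172.MSS

open Finset Complex Matrix H990SF

variable {V : Type*} [DecidableEq V]

/-- the operator `1 - ∂_x ∂_y` -/
def op1 (e : V × V) (f : (V → ℂ) → ℂ) : (V → ℂ) → ℂ := fun z => f z - pd e.1 (pd e.2 f) z

/-- the composition of the operators of a list of edges -/
def ops : List (V × V) → ((V → ℂ) → ℂ) → ((V → ℂ) → ℂ)
  | [], f => f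
  | e :: L, f => op1 e (ops L f)

lemma op1_lin (e : V × V) (f g : (V → ℂ) → ℂ) (a b : ℂ) :
    op1 e (fun z => a * f z + b * g z) = fun z => a * op1 e f z + b * op1 e g z := by
  funext z
  simp only [op1, pd]
  ring

lemma ops_lin (L : List (V × V)) (f g : (V → ℂ) → ℂ) (a b : ℂ) :
    ops L (fun z => a * f z + b * g z) = fun z => a * ops L f z + b * ops L g z := by
  induction L with
  | nil => rfl
  | cons e L ih => simp only [ops]; rw [ih, op1_lin]

lemma pd_op1 (i : V) (e : V × V) (f : (V → ℂ) → ℂ) : pd i (op1 e f) = op1 e (pd i f) := by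
  have h : pd i (fun z => f z - pd e.1 (pd e.2 f) z) = fun z => pd i f z -
      pd i (pd e.1 (pd e.2 f)) z := by
    funext z
    simp only [pd]
    ring
  unfold op1
  rw [h, pd_comm i e.1, pd_comm i e.2]

lemma op1_comm (e e' : V × V) (f : (V → ℂ) → ℂ) : op1 e (op1 e' f) = op1 e' (op1 e f) := by
  have h : op1 e (op1 e' f) = fun z => op1 e' f z - pd e.1 (pd e.2 (op1 e' f)) z := rfl
  rw [h, pd_op1, pd_op1]
  funext z
  simp only [op1, pd]
  ring

lemma ops_op1 (L : List (V × V)) (e : V × V) (f : (V → ℂ) → ℂ) :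
    ops L (op1 e f) = op1 e (ops L f) := by
  induction L with
  | nil => rfl
  | cons e' L ih => simp only [ops]; rw [ih, op1_comm]

lemma MA_op1 (e : V × V) {f : (V → ℂ) → ℂ} (hf : MA f) : MA (op1 e f) := by
  have h := MA.sub_smul hf ((hf.pd e.2).pd e.1) 1
  have h2 : op1 e f = fun z => f z - 1 * pd e.1 (pd e.2 f) z := by
    funext z
    simp [op1]
  rw [h2]
  exact h

lemma MA_ops (L : List (V × V)) {f : (V → ℂ) → ℂ} (hf : MA f) : MA (ops L f) := by
  induction L with
  | nil => exact hf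
  | cons e L ih => exact MA_op1 e ih

lemma Stab_opw (e : V × V) (he : e.1 ≠ e.2) {w : ℝ} (hw : 0 ≤ w) {f : (V → ℂ) → ℂ} (hf : MA f)
    (hs : Stab f) : Stab (fun z => f z - w * pd e.1 (pd e.2 f) z) :=
  Stab.op hf hs he hw

lemma Stab_ops (L : List (V × V)) (hL : ∀ e ∈ L, e.1 ≠ e.2) {f : (V → ℂ) → ℂ} (hf : MA f)
    (hs : Stab f) : Stab (ops L f) := by
  induction L with
  | nil => exact hs
  | cons e L ih =>
    have h := Stab_opw e (hL e (by simp)) zero_le_one (MA_ops L hf)
      (ih (fun e' he' => hL e' (by simp [he'])))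
    have h2 : ops (e :: L) f = fun z => ops L f z - ((1 : ℝ) : ℂ) *
        pd e.1 (pd e.2 (ops L f)) z := by
      funext z
      simp [ops, op1]
    rw [h2]
    exact h

variable [Fintype V]

/-- the mixture of the two signings of an edge -/
theorem mix (H : Matrix V V ℂ) {x y : V} (hxy : x ≠ y) (m : ℂ) (z : V → ℂ) :
    (1 + m) / 2 * FD (H + EE (x, y)) z + (1 - m) / 2 * FD (H - EE (x, y)) z =
      FD (H + m • EE (x, y)) z - (1 - m ^ 2) * pd x (pd y (FD (H + m • EE (x, y)))) z := by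
  have h1 := FD_add H hxy 1 z
  have h2 := FD_add H hxy (-1) z
  have h3 := FD_add H hxy m z
  rw [one_smul] at h1
  rw [neg_one_smul, ← sub_eq_add_neg] at h2
  rw [pd_pd_FD_add H hxy m z, h1, h2, h3]
  ring

theorem mix0 (H : Matrix V V ℂ) {x y : V} (hxy : x ≠ y) :
    op1 (x, y) (FD H) = fun z => 1 / 2 * FD (H + EE (x, y)) z + 1 / 2 * FD (H - EE (x, y)) z := by
  funext z
  have h := mix H hxy 0 z
  have h0 : H + (0 : ℂ) • EE (x, y) = H := by simp
  rw [h0] at h
  unfold op1
  simp only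
  linear_combination -h

/-- all mixtures over one edge are stable -/
theorem Stab_mix (L : List (V × V)) (hL : ∀ e ∈ L, e.1 ≠ e.2) {H : Matrix V V ℂ}
    {x y : V} (hxy : x ≠ y) {m : ℝ} (hm : m ^ 2 ≤ 1)
    (hH : (H + (m : ℂ) • EE (x, y)).IsHermitian) :
    Stab (fun z => (1 + (m : ℂ)) / 2 * ops L (FD (H + EE (x, y))) z +
      (1 - (m : ℂ)) / 2 * ops L (FD (H - EE (x, y))) z) := by
  rw [← ops_lin]
  have h : (fun z => (1 + (m : ℂ)) / 2 * FD (H + EE (x, y)) z +
      (1 - (m : ℂ)) / 2 * FD (H - EE (x, y)) z) = fun z => FD (H + (m : ℂ) • EE (x, y)) z -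
      ((1 - m ^ 2 : ℝ) : ℂ) * pd x (pd y (FD (H + (m : ℂ) • EE (x, y)))) z := by
    funext z
    rw [mix H hxy]
    push_cast
    ring
  rw [h]
  refine Stab_ops L hL ?_ ?_
  · exact MA.sub_smul (MA_FD _) (((MA_FD _).pd y).pd x) _
  · exact Stab_opw (x, y) hxy (by linarith) (MA_FD _) (Stab_FD hH)

end Pool.Agent.X172.MSS
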