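import Pool.Agent.X172.MSS.Ops

/-!
Real-rooted polynomials with all roots above a threshold: the path argument.
-/

namespace Pool.Agent.X172.MSS

open Finset Polynomial

/-- real-rooted -/
def RR (p : ℝ[X]) : Prop := ∀ x : ℂ, x.im ≠ 0 → aeval x p ≠ 0

/-- all real roots are above `c` -/
def Abv (c : ℝ) (p : ℝ[X]) : Prop := ∀ x : ℝ, x ≤ c → p.eval x ≠ 0

lemma RR_factor : ∀ (n : ℕ) (p : ℝ[X]), p.Monic → p.natDegree = n → RR p →
    ∃ s : Multiset ℝ, p = (s.map (fun r => X - C r)).prod := by
  intro n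
  induction n with
  | zero =>
    intro p hp hn _
    refine ⟨0, ?_⟩
    rw [Multiset.map_zero, Multiset.prod_zero]
    exact hp.natDegree_eq_zero.mp hn
  | succ n ih =>
    intro p hp hn hR
    obtain ⟨z, hz⟩ : ∃ z : ℂ, aeval z p = 0 := by
      have h1 : (p.map (algebraMap ℝ ℂ)).degree ≠ 0 := by
        rw [degree_map]
        intro h
        have h2 : p.natDegree = 0 := natDegree_eq_zero_iff_degree_le_zero.mpr h.le
        omega
      obtain ⟨z, hz⟩ := IsAlgClosed.exists_root (p.map (algebraMap ℝ ℂ)) h1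
      refine ⟨z, ?_⟩
      rw [IsRoot, eval_map_algebraMap] at hz
      exact hz
    have hzim : z.im = 0 := by
      by_contra h
      exact hR z h hz
    have hzr : z = ((z.re : ℝ) : ℂ) := Complex.ext (by simp) (by simp [hzim])
    have hroot : p.eval z.re = 0 := by
      rw [hzr] at hz
      have h2 : aeval ((z.re : ℝ) : ℂ) p = ((p.eval z.re : ℝ) : ℂ) := by
        rw [← Complex.coe_algebraMap, aeval_algebraMap_apply, coe_aeval_eq_eval]
      rw [h2] at hz
      exact_mod_cast hz
    obtain ⟨q, hq⟩ := dvd_iff_isRoot.mpr hroot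
    have hqm : q.Monic := by
      have := hp
      rw [hq] at this
      exact (monic_X_sub_C _).of_mul_monic_left this
    have hqn : q.natDegree = n := by
      have h3 : (X - C z.re).natDegree + q.natDegree = n + 1 := by
        rw [← hn, hq, (monic_X_sub_C z.re).natDegree_mul hqm]
      rw [natDegree_X_sub_C] at h3
      omega
    obtain ⟨s, hs⟩ := ih q hqm hqn (by
      intro x hx h0
      refine hR x hx ?_
      rw [hq, map_mul, h0, mul_zero])
    refine ⟨z.re ::ₘ s, ?_⟩
    rw [Multiset.map_cons, Multiset.prod_cons, ← hs]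
    exact hq

/-- the reflected and shifted polynomial `(-1)^n p (c - y)` -/
noncomputable def sh (c : ℝ) (n : ℕ) (p : ℝ[X]) : ℝ[X] := C ((-1) ^ n) * p.comp (C c - X)

lemma sh_lin (c : ℝ) (n : ℕ) (p q : ℝ[X]) (a b : ℝ) :
    sh c n (C a * p + C b * q) = C a * sh c n p + C b * sh c n q := by
  unfold sh
  rw [add_comp, mul_comp, mul_comp, C_comp, C_comp]
  ring

lemma eval_sh (c : ℝ) (n : ℕ) (p : ℝ[X]) (y : ℝ) : (sh c n p).eval y = (-1) ^ n * p.eval (c - y) := by
  unfold sh
  simp [eval_comp]

lemma pos_of_multiset (s : Multiset ℝ) (hs : ∀ r ∈ s, 0 < r) :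
    ∀ k ≤ Multiset.card s, 0 < ((s.map (fun r => X + C r)).prod).coeff k := by
  induction s using Multiset.induction_on with
  | empty =>
    intro k hk
    rw [Multiset.card_zero] at hk
    have : k = 0 := by omega
    subst this
    simp
  | cons r s ih =>
    have ih' := ih (fun r' h => hs r' (Multiset.mem_cons_of_mem h))
    have hr := hs r (Multiset.mem_cons_self r s)
    intro k hk
    rw [Multiset.card_cons] at hk
    rw [Multiset.map_cons, Multiset.prod_cons, add_mul]
    set Q := (s.map (fun r => X + C r)).prod with hQ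
    have hge : ∀ j, 0 ≤ Q.coeff j := by
      intro j
      by_cases hj : j ≤ Multiset.card s
      · exact (ih' j hj).le
      · rw [coeff_eq_zero_of_natDegree_lt]
        have : Q.natDegree = Multiset.card s := by
          rw [hQ, natDegree_multiset_prod_of_monic]
          · simp [Multiset.map_map]
          · intro f hf
            obtain ⟨a, _, rfl⟩ := Multiset.mem_map.mp hf
            exact monic_X_add_C a
        omega
    rw [coeff_add, coeff_C_mul]
    rcases Nat.eq_zero_or_pos k with h0 | h0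
    · subst h0
      rw [coeff_X_mul_zero, zero_add]
      exact mul_pos hr (ih' 0 (Nat.zero_le _))
    · obtain ⟨j, rfl⟩ : ∃ j, k = j + 1 := ⟨k - 1, by omega⟩
      rw [coeff_X_mul]
      exact add_pos_of_pos_of_nonneg (ih' j (by omega)) (mul_nonneg hr.le (hge _))

lemma coeff_sh_pos {c : ℝ} {n : ℕ} {p : ℝ[X]} (hp : p.Monic) (hn : p.natDegree = n) (hR : RR p)
    (hA : Abv c p) : ∀ k ≤ n, 0 < (sh c n p).coeff k := by
  obtain ⟨s, hs⟩ := RR_factor n p hp hn hR
  have hcard : Multiset.card s = n := by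
    rw [← hn, hs, natDegree_multiset_prod_of_monic]
    · simp [Multiset.map_map]
    · intro f hf
      obtain ⟨a, _, rfl⟩ := Multiset.mem_map.mp hf
      exact monic_X_sub_C a
  have hroot : ∀ r ∈ s, c < r := by
    intro r hr
    by_contra h
    push Not at h
    refine hA r h ?_
    rw [hs, eval_multiset_prod, Multiset.prod_eq_zero]
    rw [Multiset.map_map, Multiset.mem_map]
    exact ⟨r, hr, by simp⟩
  have hsh : sh c n p = ((s.map (fun r => r - c)).map (fun r => X + C r)).prod := by
    unfold sh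
    have h1 : p.comp (C c - X) = (s.map (fun r => (-1 : ℝ[X]) * (X + C (r - c)))).prod := by
      rw [hs, multiset_prod_comp, Multiset.map_map]
      congr 1
      refine Multiset.map_congr rfl fun r _ => ?_
      simp only [Function.comp, sub_comp, X_comp, C_comp, C_sub]
      ring
    rw [h1, Multiset.prod_map_mul, Multiset.map_const', Multiset.prod_replicate, hcard,
      ← mul_assoc, Multiset.map_map]
    have h2 : C ((-1 : ℝ) ^ n) * (-1) ^ n = (1 : ℝ[X]) := by
      rw [C_pow, C_neg, C_1, ← mul_pow]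
      simp
    rw [h2, one_mul]
    rfl
  rw [hsh, ← hcard]
  have h3 := pos_of_multiset (s.map (fun r => r - c)) (by
    intro r hr
    obtain ⟨a, ha, rfl⟩ := Multiset.mem_map.mp hr
    have := hroot a ha
    linarith)
  rw [Multiset.card_map] at h3
  exact h3

lemma Abv_of_coeff {c : ℝ} {n : ℕ} {p : ℝ[X]} (hn : p.natDegree ≤ n) (h0 : p.eval c ≠ 0)
    (h : ∀ k ≤ n, 0 ≤ (sh c n p).coeff k) : Abv c p := by
  intro x hx h1
  have h2 : (sh c n p).eval (c - x) = 0 := by
    rw [eval_sh]
    simp [h1]
  have h3 : (sh c n p).eval 0 ≠ 0 := by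
    rw [eval_sh, sub_zero]
    exact mul_ne_zero (pow_ne_zero _ (by norm_num)) h0
  have hdeg : (sh c n p).natDegree < n + 1 := by
    unfold sh
    refine Nat.lt_succ_of_le ((natDegree_C_mul_le _ _).trans ((natDegree_comp_le).trans ?_))
    have : (C c - X : ℝ[X]).natDegree ≤ 1 := by
      refine (natDegree_sub_le _ _).trans ?_
      simp
    calc p.natDegree * (C c - X : ℝ[X]).natDegree ≤ p.natDegree * 1 := Nat.mul_le_mul_left _ this
      _ ≤ n := by omega
  rw [eval_eq_sum_range' hdeg] at h2
  have h4 : ∀ k ∈ range (n + 1), 0 ≤ (sh c n p).coeff k * (c - x) ^ k := fun k hk =>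
    mul_nonneg (h k (by have := mem_range.mp hk; omega)) (pow_nonneg (by linarith) _)
  have h5 := (sum_eq_zero_iff_of_nonneg h4).mp h2 0 (by simp)
  rw [pow_zero, mul_one, coeff_zero_eq_eval_zero] at h5
  exact h3 h5

lemma pos_path (a b : ℕ → ℝ) (n : ℕ) (ha : ∀ k ≤ n, 0 < a k)
    (H : ∀ t : ℝ, 0 ≤ t → t ≤ 1 → (∀ k ≤ n, 0 ≤ (1 - t) * a k + t * b k) →
      (∀ k ≤ n, 0 < (1 - t) * a k + t * b k)) : ∀ k ≤ n, 0 < b k := by
  by_contra hcon
  push Not at hcon
  obtain ⟨k0, hk0, hbk0⟩ := hcon
  set S := (range (n + 1)).filter (fun k => b k ≤ 0) with hS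
  have hne : S.Nonempty := ⟨k0, by rw [hS, mem_filter, mem_range]; exact ⟨by omega, hbk0⟩⟩
  obtain ⟨m, hm, hmin⟩ := S.exists_min_image (fun k => a k / (a k - b k)) hne
  rw [hS, mem_filter, mem_range] at hm
  have ham := ha m (by omega)
  have hd : 0 < a m - b m := by linarith [hm.2]
  set t := a m / (a m - b m) with ht
  have ht0 : 0 ≤ t := div_nonneg ham.le hd.le
  have ht1 : t ≤ 1 := by rw [ht, div_le_one hd]; linarith [hm.2]
  have hz : (1 - t) * a m + t * b m = 0 := by
    have : t * (a m - b m) = a m := by rw [ht]; field_simp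
    linarith
  have hall : ∀ k ≤ n, 0 ≤ (1 - t) * a k + t * b k := by
    intro k hk
    have hak := ha k hk
    by_cases hbk : b k ≤ 0
    · have hkS : k ∈ S := by rw [hS, mem_filter, mem_range]; exact ⟨by omega, hbk⟩
      have h1 := hmin k hkS
      have h2 : 0 < a k - b k := by linarith
      rw [le_div_iff₀ h2] at h1
      have h3 : t * (a k - b k) ≤ a k := h1
      linarith
    · push Not at hbk
      have : 0 ≤ (1 - t) * a k := mul_nonneg (by linarith) hak.le
      have : 0 ≤ t * b k := mul_nonneg ht0 hbk.le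
      linarith
  have := H t ht0 ht1 hall m (by omega)
  linarith

/-- The path argument. -/
theorem path {c : ℝ} {n : ℕ} {p q : ℝ[X]} (hp : p.Monic) (hq : q.Monic) (hpn : p.natDegree = n)
    (hqn : q.natDegree = n)
    (hR : ∀ t : ℝ, 0 ≤ t → t ≤ 1 → RR (C (1 - t) * p + C t * q))
    (h0 : ∀ t : ℝ, 0 ≤ t → t ≤ 1 → (C (1 - t) * p + C t * q).eval c ≠ 0)
    (hA : Abv c p) : Abv c q := by
  have hmon : ∀ t : ℝ, (C (1 - t) * p + C t * q).Monic ∧
      (C (1 - t) * p + C t * q).natDegree = n := by
    intro t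
    have hle : (C (1 - t) * p + C t * q).natDegree ≤ n := by
      refine (natDegree_add_le _ _).trans (max_le ?_ ?_)
      · exact (natDegree_C_mul_le _ _).trans hpn.le
      · exact (natDegree_C_mul_le _ _).trans hqn.le
    have hco : (C (1 - t) * p + C t * q).coeff n = 1 := by
      have h1 : p.coeff n = 1 := by rw [← hpn]; exact hp
      have h2 : q.coeff n = 1 := by rw [← hqn]; exact hq
      rw [coeff_add, coeff_C_mul, coeff_C_mul, h1, h2]
      ring
    have hm : (C (1 - t) * p + C t * q).Monic := monic_of_natDegree_le_of_coeff_eq_one n hle hco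
    refine ⟨hm, le_antisymm hle ?_⟩
    exact le_natDegree_of_ne_zero (by rw [hco]; exact one_ne_zero)
  have hlin : ∀ (t : ℝ) (k : ℕ), (sh c n (C (1 - t) * p + C t * q)).coeff k =
      (1 - t) * (sh c n p).coeff k + t * (sh c n q).coeff k := by
    intro t k
    rw [sh_lin, coeff_add, coeff_C_mul, coeff_C_mul]
  have hRp : RR p := by
    have := hR 0 le_rfl zero_le_one
    simpa using this
  have h1 := pos_path (fun k => (sh c n p).coeff k) (fun k => (sh c n q).coeff k) n
    (coeff_sh_pos hp hpn hRp hA) (by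
      intro t ht0 ht1 hge k hk
      have hA' : Abv c (C (1 - t) * p + C t * q) := Abv_of_coeff (hmon t).2.le (h0 t ht0 ht1)
        (fun k hk => by rw [hlin]; exact hge k hk)
      have := coeff_sh_pos (hmon t).1 (hmon t).2 (hR t ht0 ht1) hA' k hk
      rw [hlin] at this
      exact this)
  refine Abv_of_coeff hqn.le ?_ (fun k hk => (h1 k hk).le)
  have := h0 1 zero_le_one le_rfl
  simpa using this

end Pool.Agent.X172.MSS
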