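import Pool.Agent.X172.MSS.Poly

/-!
Existence of a good signing: if the expected characteristic polynomial has all roots above `c`,
then so has the characteristic polynomial of some signing.
-/

namespace Pool.Agent.X172.MSS

open Finset Polynomial Matrix H990SF

variable {V : Type*} [Fintype V] [DecidableEq V]

/-- the real symmetric edge matrix -/
def ER (e : V × V) : Matrix V V ℝ := Matrix.single e.1 e.2 1 + Matrix.single e.2 e.1 1

/-- the expected characteristic polynomial -/
noncomputable def fp : Matrix V V ℝ → List (V × V) → ℝ[X]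
  | H, [] => H.charpoly
  | H, e :: L => C (1 / 2) * fp (H + ER e) L + C (1 / 2) * fp (H - ER e) L

lemma fp_monic (L : List (V × V)) : ∀ H : Matrix V V ℝ,
    (fp H L).Monic ∧ (fp H L).natDegree = Fintype.card V := by
  induction L with
  | nil => intro H; exact ⟨H.charpoly_monic, H.charpoly_natDegree_eq_dim⟩
  | cons e L ih =>
    intro H
    obtain ⟨h1, h2⟩ := ih (H + ER e)
    obtain ⟨h3, h4⟩ := ih (H - ER e)
    have hle : (fp H (e :: L)).natDegree ≤ Fintype.card V := by
      unfold fp
      refine (natDegree_add_le _ _).trans (max_le ?_ ?_)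
      · exact (natDegree_C_mul_le _ _).trans h2.le
      · exact (natDegree_C_mul_le _ _).trans h4.le
    have hco : (fp H (e :: L)).coeff (Fintype.card V) = 1 := by
      have h5 : (fp (H + ER e) L).coeff (Fintype.card V) = 1 := by rw [← h2]; exact h1
      have h6 : (fp (H - ER e) L).coeff (Fintype.card V) = 1 := by rw [← h4]; exact h3
      rw [fp, coeff_add, coeff_C_mul, coeff_C_mul, h5, h6]
      norm_num
    refine ⟨monic_of_natDegree_le_of_coeff_eq_one _ hle hco, le_antisymm hle ?_⟩
    exact le_natDegree_of_ne_zero (by rw [hco]; exact one_ne_zero)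

/-- the complexification -/
noncomputable def cx (H : Matrix V V ℝ) : Matrix V V ℂ := H.map (fun x : ℝ => (x : ℂ))

lemma cx_add (H : Matrix V V ℝ) (e : V × V) : cx (H + ER e) = cx H + EE e := by
  ext i j
  simp only [cx, ER, EE, Matrix.map_apply, Matrix.add_apply, Matrix.single_apply]
  push_cast
  congr 2 <;> split_ifs <;> simp

lemma cx_sub (H : Matrix V V ℝ) (e : V × V) : cx (H - ER e) = cx H - EE e := by
  ext i j
  simp only [cx, ER, EE, Matrix.map_apply, Matrix.add_apply, Matrix.sub_apply,
    Matrix.single_apply]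
  push_cast
  congr 2 <;> split_ifs <;> simp

lemma aeval_fp (L : List (V × V)) (hL : ∀ e ∈ L, e.1 ≠ e.2) : ∀ (H : Matrix V V ℝ) (x : ℂ),
    aeval x (fp H L) = (-1) ^ (Fintype.card V) * ops L (FD (cx H)) (fun _ => -x) := by
  induction L with
  | nil =>
    intro H x
    have h1 : aeval x H.charpoly = (cx H).charpoly.eval x := by
      have : (cx H).charpoly = H.charpoly.map (algebraMap ℝ ℂ) := by
        rw [← Matrix.charpoly_map]
        rfl
      rw [this, eval_map_algebraMap]
    show aeval x H.charpoly = _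
    rw [h1, Matrix.eval_charpoly]
    unfold ops FD
    have h2 : Matrix.scalar V x - cx H = -(Matrix.diagonal (fun _ => -x) + cx H) := by
      rw [neg_add, ← Matrix.diagonal_neg, sub_eq_add_neg]
      congr 1
      rw [Matrix.scalar_apply]
      congr 1
      funext i
      simp
    rw [h2, Matrix.det_neg]
  | cons e L ih =>
    intro H x
    have ih' := ih (fun e' he' => hL e' (by simp [he']))
    have he : e.1 ≠ e.2 := hL e (by simp)
    rw [fp, map_add, map_mul, map_mul, aeval_C, ih', ih', ops, ← ops_op1, cx_add, cx_sub]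
    have h := mix0 (cx H) he
    have h2 : (e.1, e.2) = e := rfl
    rw [h2] at h
    rw [h, ops_lin]
    simp only [Complex.coe_algebraMap]
    push_cast
    ring

lemma RR_of_lower {p : ℝ[X]} (h : ∀ x : ℂ, x.im < 0 → aeval x p ≠ 0) : RR p := by
  intro x hx h0
  rcases lt_or_gt_of_ne hx with h1 | h1
  · exact h x h1 h0
  · refine h ((starRingEnd ℂ) x) (by simpa using h1) ?_
    have h2 : aeval ((starRingEnd ℂ) x) p = (starRingEnd ℂ) (aeval x p) := by
      have := Polynomial.aeval_algHom_apply (Complex.conjAe.toAlgHom) x p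
      exact this
    rw [h2, h0, map_zero]

theorem RR_mix (L : List (V × V)) (hL : ∀ e ∈ L, e.1 ≠ e.2) {H : Matrix V V ℝ} (hH : H.IsSymm)
    {e : V × V} (he : e.1 ≠ e.2) {m : ℝ} (hm : m ^ 2 ≤ 1) :
    RR (C ((1 + m) / 2) * fp (H + ER e) L + C ((1 - m) / 2) * fp (H - ER e) L) := by
  apply RR_of_lower
  intro x hx h0
  have hherm : (cx H + (m : ℂ) • EE (e.1, e.2)).IsHermitian := by
    ext i j
    have h1 : H j i = H i j := by
      have := congrFun (congrFun hH i) j
      rwa [Matrix.transpose_apply] at this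
    simp only [Matrix.conjTranspose_apply, Matrix.add_apply, cx, Matrix.map_apply, h1,
      Matrix.smul_apply, EE, Matrix.single_apply, smul_eq_mul, star_add, star_mul']
    simp only [RCLike.star_def, Complex.conj_ofReal]
    congr 2
    rw [add_comm]
    congr 1
    · simp [apply_ite, and_comm]
    · simp [apply_ite, and_comm]
  have hs := Stab_mix L hL he hm hherm (fun _ => -x) (fun _ => by simpa using hx)
  apply hs
  rw [map_add, map_mul, map_mul, aeval_C, aeval_C, aeval_fp L hL, aeval_fp L hL, cx_add,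
    cx_sub] at h0
  have h2 : (e.1, e.2) = e := rfl
  simp only
  rw [h2]
  have h3 : ((-1 : ℂ)) ^ (Fintype.card V) ≠ 0 := pow_ne_zero _ (by norm_num)
  apply mul_left_cancel₀ h3
  rw [mul_zero, ← h0]
  simp only [Complex.coe_algebraMap]
  push_cast
  ring

lemma sign_of_Abv {c : ℝ} {n : ℕ} {p : ℝ[X]} (hp : p.Monic) (hn : p.natDegree = n) (hR : RR p)
    (hA : Abv c p) : 0 < (-1) ^ n * p.eval c := by
  have h := coeff_sh_pos hp hn hR hA 0 (Nat.zero_le _)
  rw [coeff_zero_eq_eval_zero, eval_sh, sub_zero] at h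
  exact h

/-- One step: the expected polynomial over one edge. -/
theorem step (L : List (V × V)) (hL : ∀ e ∈ L, e.1 ≠ e.2) {H : Matrix V V ℝ} (hH : H.IsSymm)
    {e : V × V} (he : e.1 ≠ e.2) {c : ℝ} (hA : Abv c (fp H (e :: L))) :
    Abv c (fp (H + ER e) L) ∨ Abv c (fp (H - ER e) L) := by
  set n := Fintype.card V
  obtain ⟨hm0, hd0⟩ := fp_monic (e :: L) H
  obtain ⟨hm1, hd1⟩ := fp_monic L (H + ER e)
  obtain ⟨hm2, hd2⟩ := fp_monic L (H - ER e)
  have hR : ∀ m : ℝ, m ^ 2 ≤ 1 →
      RR (C ((1 + m) / 2) * fp (H + ER e) L + C ((1 - m) / 2) * fp (H - ER e) L) :=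
    fun m hm => RR_mix L hL hH he hm
  have hf0 : fp H (e :: L) = C (1 / 2) * fp (H + ER e) L + C (1 / 2) * fp (H - ER e) L := rfl
  have hR0 : RR (fp H (e :: L)) := by
    have := hR 0 (by norm_num)
    rw [hf0]
    simpa using this
  have hs := sign_of_Abv hm0 hd0 hR0 hA
  have hs2 : 0 < (-1) ^ n * (fp (H + ER e) L).eval c ∨ 0 < (-1) ^ n * (fp (H - ER e) L).eval c := by
    by_contra hcon
    push Not at hcon
    rw [hf0, eval_add, eval_mul, eval_mul, eval_C] at hs
    nlinarith [hcon.1, hcon.2]
  rcases hs2 with h1 | h1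
  · left
    refine path hm0 hm1 hd0 hd1 ?_ ?_ hA
    · intro t ht0 ht1
      have := hR t (by nlinarith)
      convert this using 1
      rw [hf0]
      have e1 : (C ((1 + t) / 2) : ℝ[X]) = C (1 - t) * C (1 / 2) + C t := by
        rw [← C_mul, ← C_add]
        congr 1
        ring
      have e2 : (C ((1 - t) / 2) : ℝ[X]) = C (1 - t) * C (1 / 2) := by
        rw [← C_mul]
        congr 1
        ring
      rw [e1, e2]
      ring
    · intro t ht0 ht1 h0
      rw [eval_add, eval_mul, eval_mul, eval_C, eval_C] at h0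
      have h5 : 0 ≤ (1 - t) * ((-1) ^ n * (fp H (e :: L)).eval c) :=
        mul_nonneg (by linarith) hs.le
      have h6 : 0 ≤ t * ((-1) ^ n * (fp (H + ER e) L).eval c) := mul_nonneg ht0 h1.le
      have h7 : (1 - t) * ((-1) ^ n * (fp H (e :: L)).eval c) +
          t * ((-1) ^ n * (fp (H + ER e) L).eval c) = 0 := by
        linear_combination ((-1) ^ n) * h0
      rcases le_or_gt t (1 / 2) with h8 | h8
      · nlinarith
      · nlinarith
  · right
    refine path hm0 hm2 hd0 hd2 ?_ ?_ hA
    · intro t ht0 ht1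
      have := hR (-t) (by nlinarith)
      convert this using 1
      rw [hf0]
      have e1 : (C ((1 - -t) / 2) : ℝ[X]) = C (1 - t) * C (1 / 2) + C t := by
        rw [← C_mul, ← C_add]
        congr 1
        ring
      have e2 : (C ((1 + -t) / 2) : ℝ[X]) = C (1 - t) * C (1 / 2) := by
        rw [← C_mul]
        congr 1
        ring
      rw [e1, e2]
      ring
    · intro t ht0 ht1 h0
      rw [eval_add, eval_mul, eval_mul, eval_C, eval_C] at h0
      have h5 : 0 ≤ (1 - t) * ((-1) ^ n * (fp H (e :: L)).eval c) :=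
        mul_nonneg (by linarith) hs.le
      have h6 : 0 ≤ t * ((-1) ^ n * (fp (H - ER e) L).eval c) := mul_nonneg ht0 h1.le
      have h7 : (1 - t) * ((-1) ^ n * (fp H (e :: L)).eval c) +
          t * ((-1) ^ n * (fp (H - ER e) L).eval c) = 0 := by
        linear_combination ((-1) ^ n) * h0
      rcases le_or_gt t (1 / 2) with h8 | h8
      · nlinarith
      · nlinarith

/-- Lists of edges, each edge once in one orientation. -/
def Good (L : List (V × V)) : Prop :=
  L.Nodup ∧ ∀ e ∈ L, e.1 ≠ e.2 ∧ (e.2, e.1) ∉ L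

/-- Existence of a good signing. -/
theorem exists_signing {c : ℝ} (L : List (V × V)) (hL : Good L) : ∀ (H : Matrix V V ℝ),
    H.IsSymm → Abv c (fp H L) → ∃ H' : Matrix V V ℝ, H'.IsSymm ∧ Abv c H'.charpoly ∧
      (∀ i j, (i, j) ∉ L → (j, i) ∉ L → H' i j = H i j) ∧
      (∀ e ∈ L, H' e.1 e.2 = H e.1 e.2 + 1 ∨ H' e.1 e.2 = H e.1 e.2 - 1) := by
  induction L with
  | nil =>
    intro H hH hA
    exact ⟨H, hH, hA, fun _ _ _ _ => rfl, fun e he => absurd he (by simp)⟩
  | cons e L ih =>
    intro H hH hA
    have hnd := List.nodup_cons.mp hL.1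
    have hL' : Good L := ⟨hnd.2, fun e' he' => ⟨(hL.2 e' (List.mem_cons_of_mem _ he')).1,
      fun h => (hL.2 e' (List.mem_cons_of_mem _ he')).2 (List.mem_cons_of_mem _ h)⟩⟩
    have he := hL.2 e (List.mem_cons_self)
    have hsymE : (ER e).IsSymm := by
      unfold ER
      ext i j
      simp only [Matrix.transpose_apply, Matrix.add_apply, Matrix.single_apply]
      rw [add_comm]
      congr 1 <;> simp [and_comm]
    have hent : ∀ i j, (i, j) ≠ e → (j, i) ≠ e → ER e i j = 0 := by
      intro i j h1 h2
      unfold ER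
      rw [Matrix.add_apply, Matrix.single_apply, Matrix.single_apply, if_neg, if_neg, add_zero]
      · rintro ⟨h3, h4⟩
        exact h2 (by rw [← h3, ← h4])
      · rintro ⟨h3, h4⟩
        exact h1 (by rw [← h3, ← h4])
    have hent2 : ER e e.1 e.2 = 1 := by
      unfold ER
      rw [Matrix.add_apply, Matrix.single_apply, Matrix.single_apply, if_pos ⟨rfl, rfl⟩, if_neg,
        add_zero]
      rintro ⟨h3, _⟩
      exact he.1 h3.symm
    have key : ∀ s : ℝ, (s = 1 ∨ s = -1) → Abv c (fp (H + s • ER e) L) →
        ∃ H' : Matrix V V ℝ, H'.IsSymm ∧ Abv c H'.charpoly ∧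
        (∀ i j, (i, j) ∉ e :: L → (j, i) ∉ e :: L → H' i j = H i j) ∧
        (∀ e' ∈ e :: L, H' e'.1 e'.2 = H e'.1 e'.2 + 1 ∨ H' e'.1 e'.2 = H e'.1 e'.2 - 1) := by
      intro s hs hA'
      obtain ⟨H', h1, h2, h3, h4⟩ := ih hL' (H + s • ER e)
        (hH.add (hsymE.smul s)) hA'
      refine ⟨H', h1, h2, ?_, ?_⟩
      · intro i j hi hj
        rw [List.mem_cons, not_or] at hi hj
        rw [h3 i j hi.2 hj.2, Matrix.add_apply, Matrix.smul_apply, hent i j hi.1 hj.1]
        simp
      · intro e' he'
        rcases List.mem_cons.mp he' with rfl | he''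
        · have h5 : (e'.2, e'.1) ∉ L := fun h => he.2 (List.mem_cons_of_mem _ h)
          rw [h3 e'.1 e'.2 hnd.1 h5, Matrix.add_apply, Matrix.smul_apply, hent2]
          rcases hs with rfl | rfl
          · left; simp
          · right; simp [sub_eq_add_neg]
        · have h5 : ER e e'.1 e'.2 = 0 := by
            apply hent
            · intro h
              exact hnd.1 (by rw [← h]; exact he'')
            · intro h
              have h6 := (hL.2 e' he').2
              rw [h] at h6
              exact h6 (List.mem_cons_self)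
          have h7 := h4 e' he''
          rw [Matrix.add_apply, Matrix.smul_apply, h5] at h7
          simpa using h7
    rcases step L (fun e' he' => (hL'.2 e' he').1) hH he.1 hA with h | h
    · exact key 1 (Or.inl rfl) (by rwa [one_smul])
    · exact key (-1) (Or.inr rfl) (by rwa [neg_one_smul, ← sub_eq_add_neg])

end Pool.Agent.X172.MSS
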